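import Mathlib
import Pool.Agent.Helper92K9.WI.Cnt

set_option autoImplicit false

/-!
# The number of bases modulo `p ^ 2` with a given Fermat quotient
-/

namespace Run7.h854.FQ

open Finset
open scoped Classical

/-- `p` does not divide `a`, and the Fermat quotient `(a ^ (p - 1) - 1) / p` is congruent to `c` modulo `p` -/
def IsFQ (c a : ℤ) (p : ℕ) : Prop := p.Prime ∧ ¬ (p : ℤ) ∣ a ∧ (p : ℤ) ^ 2 ∣ a ^ (p - 1) - 1 - c * p

lemma isFQ_periodic (c : ℤ) (p : ℕ) (a t : ℤ) : IsFQ c (a + p ^ 2 * t) p ↔ IsFQ c a p := by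
  unfold IsFQ
  have h1 : (p : ℤ) ∣ a + (p : ℤ) ^ 2 * t ↔ (p : ℤ) ∣ a := by
    have h0 : a + (p : ℤ) ^ 2 * t = a + p * (p * t) := by ring
    rw [h0, Int.dvd_add_left (Dvd.intro _ rfl)]
  have h2 : (p : ℤ) ^ 2 ∣ (a + (p : ℤ) ^ 2 * t) ^ (p - 1) - a ^ (p - 1) := by
    have := sub_dvd_pow_sub_pow (a + (p : ℤ) ^ 2 * t) a (p - 1)
    rw [add_sub_cancel_left] at this
    exact (Dvd.intro _ rfl).trans this
  have h3 : (p : ℤ) ^ 2 ∣ (a + (p : ℤ) ^ 2 * t) ^ (p - 1) - 1 - c * p ↔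
      (p : ℤ) ^ 2 ∣ a ^ (p - 1) - 1 - c * p := by
    have e : (a + (p : ℤ) ^ 2 * t) ^ (p - 1) - 1 - c * p =
        (a ^ (p - 1) - 1 - c * p) + ((a + (p : ℤ) ^ 2 * t) ^ (p - 1) - a ^ (p - 1)) := by ring
    rw [e, dvd_add_left h2]
  rw [h1, h3]

lemma one_lift {p : ℕ} (hp : p.Prime) (hp2 : p ≠ 2) (c r : ℤ) (hr : ¬ (p : ℤ) ∣ r) :
    ∃ s : ℤ, ∀ t : ℤ, (p : ℤ) ^ 2 ∣ (r + p * t) ^ (p - 1) - 1 - c * p ↔ (p : ℤ) ∣ t + s := by
  have hpr := Nat.prime_iff_prime_int.1 hp
  have h3 : 3 ≤ p := by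
    have := hp.two_le
    omega
  have hF : (p : ℤ) ∣ r ^ (p - 1) - 1 := by
    have h := Int.ModEq.pow_card_sub_one_eq_one hp (show IsCoprime r p from
      (hpr.coprime_iff_not_dvd.2 hr).symm)
    exact Int.modEq_iff_dvd.1 h.symm
  obtain ⟨m, hm⟩ := hF
  have hm' : r ^ (p - 1) = 1 + p * m := by linarith
  refine ⟨-r * (m - c), fun t => ?_⟩
  obtain ⟨z, hz⟩ := Polynomial.powAddExpansion r (p * t) (p - 1)
  have hpz : (p : ℤ) ≠ 0 := by exact_mod_cast hp.ne_zero
  have hcast : ((p - 1 : ℕ) : ℤ) = (p : ℤ) - 1 := by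
    rw [Nat.cast_sub hp.one_le, Nat.cast_one]
  have hr1 : r * r ^ (p - 1 - 1) = r ^ (p - 1) := by
    rw [← pow_succ']
    congr 1
    omega
  obtain ⟨W, hW⟩ : ∃ W : ℤ, W = m - c + ((p : ℤ) - 1) * r ^ (p - 1 - 1) * t + p * (z * t ^ 2) := ⟨_, rfl⟩
  have e1 : (r + p * t) ^ (p - 1) - 1 - c * p = p * W := by
    rw [hz, hcast, hm', hW]
    ring
  have e2 : r * W = -(t + -r * (m - c)) + p * (t + ((p : ℤ) - 1) * m * t + r * z * t ^ 2) := by
    have : r * W = r * (m - c) + ((p : ℤ) - 1) * (r * r ^ (p - 1 - 1)) * t + p * (r * (z * t ^ 2)) := by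
      rw [hW]
      ring
    rw [this, hr1, hm']
    ring
  rw [e1, pow_two, mul_dvd_mul_iff_left hpz]
  constructor
  · intro h
    have h4 : (p : ℤ) ∣ r * W := h.mul_left r
    rw [e2, dvd_add_left (Dvd.intro _ rfl), dvd_neg] at h4
    exact h4
  · intro h
    have h4 : (p : ℤ) ∣ r * W := by
      rw [e2, dvd_add_left (Dvd.intro _ rfl), dvd_neg]
      exact h
    exact (hpr.dvd_or_dvd h4).resolve_left hr

/-- **the number of bases modulo `p ^ 2` is `p - 1`** -/
theorem card_local (b : ℤ) {p : ℕ} (hp : p.Prime) (hp2 : p ≠ 2) :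
    ((range (p ^ 2)).filter (fun a : ℕ => IsFQ b (a : ℤ) p)).card = p - 1 := by
  have hp0 : 0 < p := hp.pos
  have hpz : (0 : ℤ) < p := by exact_mod_cast hp0
  have hcard : ((range p).erase 0).card = p - 1 := by
    rw [card_erase_of_mem (mem_range.2 hp0), card_range]
  rw [← hcard]
  refine card_bij (fun a _ => a % p) ?_ ?_ ?_
  · intro a ha
    rw [mem_filter] at ha
    rw [mem_erase, mem_range]
    refine ⟨fun h => ha.2.2.1 ?_, Nat.mod_lt _ hp0⟩
    exact_mod_cast Nat.dvd_of_mod_eq_zero h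
  · intro a ha c hc h
    rw [mem_filter, mem_range] at ha hc
    set r := a % p with hr
    have ea : (a : ℤ) = r + p * (a / p : ℕ) := by
      have := Nat.mod_add_div a p
      exact_mod_cast this.symm
    have ec : (c : ℤ) = r + p * (c / p : ℕ) := by
      have := Nat.mod_add_div c p
      rw [← h] at this
      exact_mod_cast this.symm
    have hra : ¬ (p : ℤ) ∣ (r : ℤ) := by
      intro hd
      apply ha.2.2.1
      rw [ea]
      exact dvd_add hd (Dvd.intro _ rfl)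
    obtain ⟨s, hs⟩ := one_lift hp hp2 b r hra
    have h1 := (hs _).1 (ea ▸ ha.2.2.2)
    have h2 := (hs _).1 (ec ▸ hc.2.2.2)
    have h3 : (p : ℤ) ∣ ((a / p : ℕ) : ℤ) - ((c / p : ℕ) : ℤ) := by
      have := dvd_sub h1 h2
      refine this.trans (dvd_of_eq ?_)
      ring
    have ha1 : a / p < p := by
      rw [Nat.div_lt_iff_lt_mul hp0, ← pow_two]
      exact ha.1
    have hc1 : c / p < p := by
      rw [Nat.div_lt_iff_lt_mul hp0, ← pow_two]
      exact hc.1
    have key : ∀ u v : ℕ, u < p → v < p → (p : ℤ) ∣ (u : ℤ) - (v : ℤ) → u = v := by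
      intro u v hu hv hd
      have h4 : (u : ℤ) - v = 0 := Int.eq_zero_of_abs_lt_dvd hd (by
        rw [abs_lt]
        constructor <;> omega)
      omega
    have h5 : a / p = c / p := key _ _ ha1 hc1 h3
    have h6 := Nat.mod_add_div a p
    have h7 := Nat.mod_add_div c p
    rw [← hr] at h6
    rw [← h] at h7
    rw [← h6, ← h7, h5]
  · intro r hr
    rw [mem_erase, mem_range] at hr
    have hra : ¬ (p : ℤ) ∣ (r : ℤ) := by
      intro hd
      have h1 : p ∣ r := by exact_mod_cast hd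
      exact hr.1 (Nat.eq_zero_of_dvd_of_lt h1 hr.2)
    obtain ⟨s, hs⟩ := one_lift hp hp2 b r hra
    set t : ℕ := ((-s) % p).toNat with ht
    have ht0 : 0 ≤ (-s) % (p : ℤ) := Int.emod_nonneg _ hpz.ne'
    have ht1 : (-s) % (p : ℤ) < p := Int.emod_lt_of_pos _ hpz
    have ht2 : (t : ℤ) = (-s) % p := Int.toNat_of_nonneg ht0
    have htp : t < p := by omega
    have hdv : (p : ℤ) ∣ (t : ℤ) + s := by
      rw [ht2]
      have := Int.emod_add_mul_ediv (-s) p
      refine ⟨-((-s) / p), ?_⟩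
      linarith
    have h1 := (hs t).2 hdv
    refine ⟨r + p * t, ?_, ?_⟩
    · rw [mem_filter, mem_range]
      refine ⟨?_, hp, ?_, ?_⟩
      · have : p * t ≤ p * (p - 1) := Nat.mul_le_mul_left p (by omega)
        have h3 : p * (p - 1) + p = p ^ 2 := by
          rw [pow_two]
          conv_rhs => rw [show p = (p - 1) + 1 by omega]
          rw [Nat.sub_add_cancel hp.one_le]
          conv_lhs => rw [← mul_one p]
          rw [Nat.mul_one, ← Nat.mul_succ, Nat.succ_eq_add_one, Nat.sub_add_cancel hp.one_le]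
        omega
      · push_cast
        intro hd
        apply hra
        rwa [Int.dvd_add_left (Dvd.intro _ rfl)] at hd
      · push_cast
        exact h1
    · simp [Nat.add_mul_mod_self_left, Nat.mod_eq_of_lt hr.2]

end Run7.h854.FQ
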