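import Mathlib
import Pool.Agent.Run7.h854.FQ.Loc
import Pool.Agent.Run7.h854.WP.Bon

set_option autoImplicit false

/-!
# The number of bases for which all primes of a finite set have a given Fermat quotient
-/

namespace Run7.h854.FQ

open Finset Filter Topology
open scoped Classical
open Run7.h854.WP
open Pool.Agent.Helper92K9.WI (gg)

lemma per_mul {A : ℕ → Prop} {m : ℕ} (h : ∀ a, A (a + m) ↔ A a) (k : ℕ) : ∀ a, A (a + m * k) ↔ A a := by
  induction k with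
  | zero => intro a; simp
  | succ k ih =>
    intro a
    rw [Nat.mul_succ, ← Nat.add_assoc, h, ih]

/-- the differences run through a progression -/
structure Par where
  b : ℤ
  h : ℤ
  q : ℤ

/-- the Fermat quotient of the base `h + q i` modulo `p` is `b` -/
def Wi (P : Par) (i p : ℕ) : Prop := IsFQ P.b (P.h + P.q * (i : ℤ)) p

lemma perV (P : Par) (p i : ℕ) : Wi P (i + p ^ 2) p ↔ Wi P i p := by
  have h1 := isFQ_periodic P.b p (P.h + P.q * (i : ℤ)) P.q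
  unfold Wi
  have e : P.h + P.q * ((i + p ^ 2 : ℕ) : ℤ) = P.h + P.q * (i : ℤ) + (p : ℤ) ^ 2 * P.q := by
    push_cast
    ring
  rw [e]
  exact h1

theorem card_localV (P : Par) {p : ℕ} (hp : p.Prime) (hp2 : p ≠ 2) (hq : ¬ (p : ℤ) ∣ P.q) :
    ((range (p ^ 2)).filter (fun i : ℕ => Wi P i p)).card = p - 1 := by
  have hpos : (0 : ℤ) < (p : ℤ) ^ 2 := by
    have := hp.pos
    positivity
  set φ : ℕ → ℕ := fun i => ((P.h + P.q * (i : ℤ)) % (p : ℤ) ^ 2).toNat with hφ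
  have hφz : ∀ i, ((φ i : ℕ) : ℤ) = (P.h + P.q * (i : ℤ)) % (p : ℤ) ^ 2 := fun i =>
    Int.toNat_of_nonneg (Int.emod_nonneg _ hpos.ne')
  have hφlt : ∀ i, φ i < p ^ 2 := by
    intro i
    have h1 := Int.emod_lt_of_pos (P.h + P.q * (i : ℤ)) hpos
    rw [← hφz] at h1
    exact_mod_cast h1
  have hiff : ∀ i, IsFQ P.b ((φ i : ℕ) : ℤ) p ↔ Wi P i p := by
    intro i
    have h1 := isFQ_periodic P.b p ((φ i : ℕ) : ℤ)
      ((P.h + P.q * (i : ℤ)) / (p : ℤ) ^ 2)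
    have e : ((φ i : ℕ) : ℤ) + (p : ℤ) ^ 2 * ((P.h + P.q * (i : ℤ)) / (p : ℤ) ^ 2) =
        P.h + P.q * (i : ℤ) := by
      rw [hφz]
      exact Int.emod_add_mul_ediv _ _
    rw [e] at h1
    exact h1.symm
  have hinj : Set.InjOn φ (range (p ^ 2) : Set ℕ) := by
    intro i hi j hj hij
    rw [mem_coe, mem_range] at hi hj
    have h1 : (P.h + P.q * (i : ℤ)) % (p : ℤ) ^ 2 = (P.h + P.q * (j : ℤ)) % (p : ℤ) ^ 2 := by
      rw [← hφz, ← hφz, hij]
    have h2 : (p : ℤ) ^ 2 ∣ P.q * ((i : ℤ) - j) := by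
      have := Int.ModEq.dvd (n := (p : ℤ) ^ 2) (a := P.h + P.q * (j : ℤ)) (b := P.h + P.q * (i : ℤ)) h1.symm
      refine this.trans (dvd_of_eq ?_)
      ring
    have hco : IsCoprime ((p : ℤ) ^ 2) P.q :=
      IsCoprime.pow_left ((Nat.prime_iff_prime_int.1 hp).coprime_iff_not_dvd.2 hq)
    have h3 := hco.dvd_of_dvd_mul_left h2
    have h4 : (i : ℤ) - j = 0 := Int.eq_zero_of_abs_lt_dvd h3 (by
      have hi' : (i : ℤ) < (p : ℤ) ^ 2 := by exact_mod_cast hi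
      have hj' : (j : ℤ) < (p : ℤ) ^ 2 := by exact_mod_cast hj
      rw [abs_lt]
      constructor <;> omega)
    omega
  have himg : (range (p ^ 2)).image φ = range (p ^ 2) := by
    apply eq_of_subset_of_card_le
    · intro x hx
      obtain ⟨i, _, rfl⟩ := mem_image.1 hx
      exact mem_range.2 (hφlt i)
    · rw [card_image_of_injOn hinj]
  have h5 : ((range (p ^ 2)).filter (fun a : ℕ => IsFQ P.b (a : ℤ) p)) =
      ((range (p ^ 2)).filter (fun i : ℕ => Wi P i p)).image φ := by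
    ext x
    rw [mem_filter, mem_image]
    constructor
    · rintro ⟨h1, h2⟩
      rw [← himg, mem_image] at h1
      obtain ⟨i, hi, rfl⟩ := h1
      exact ⟨i, mem_filter.2 ⟨hi, (hiff i).1 h2⟩, rfl⟩
    · rintro ⟨i, hi, rfl⟩
      rw [mem_filter] at hi
      exact ⟨mem_range.2 (hφlt i), (hiff i).2 hi.2⟩
  rw [← card_local P.b hp hp2, h5, card_image_of_injOn]
  exact hinj.mono (by
    intro x hx
    exact mem_coe.2 (mem_filter.1 (mem_coe.1 hx)).1)

/-- all primes of `S` are good for the base -/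
def AllW (P : Par) (S : Finset ℕ) (a : ℕ) : Prop := ∀ p ∈ S, Wi P a p

def MM (S : Finset ℕ) : ℕ := ∏ p ∈ S, p ^ 2

lemma allW_spec (P : Par) (S : Finset ℕ) (hS : ∀ p ∈ S, p.Prime ∧ p ≠ 2 ∧ ¬ (p : ℤ) ∣ P.q) :
    0 < MM S ∧ (∀ a, AllW P S (a + MM S) ↔ AllW P S a) ∧
      ((range (MM S)).filter (fun a => AllW P S a)).card = ∏ p ∈ S, (p - 1) := by
  induction S using Finset.induction_on with
  | empty =>
    refine ⟨by simp [MM], fun a => by simp [AllW], ?_⟩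
    simp [MM, AllW]
  | insert q S hq ih =>
    obtain ⟨h1, h2, h3⟩ := ih (fun p hp => hS p (mem_insert_of_mem hp))
    have hqp := hS q (mem_insert_self _ _)
    have hM : MM (insert q S) = q ^ 2 * MM S := by
      unfold MM
      rw [prod_insert hq]
    have hA : ∀ a, AllW P (insert q S) a ↔ Wi P a q ∧ AllW P S a := by
      intro a
      unfold AllW
      rw [forall_mem_insert]
    have hpq := fun a : ℕ => perV P q a
    have hco : Nat.Coprime (q ^ 2) (MM S) := by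
      unfold MM
      refine Nat.Coprime.prod_right fun p hp => ?_
      refine Nat.Coprime.pow 2 2 ((Nat.coprime_primes hqp.1 (hS p (mem_insert_of_mem hp)).1).2 ?_)
      rintro rfl
      exact hq hp
    refine ⟨?_, ?_, ?_⟩
    · rw [hM]
      exact Nat.mul_pos (pow_pos hqp.1.pos 2) h1
    · intro a
      rw [hA, hA, hM]
      have e1 := per_mul (A := fun a : ℕ => Wi P a q) hpq (MM S) a
      have e2 := per_mul h2 (q ^ 2) a
      rw [mul_comm (MM S)] at e2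
      rw [e2]
      exact and_congr_left' e1
    · have h4 := Pool.Agent.Helper92K9.WI.card_crt (fun a : ℕ => Wi P a q)
        (fun a => AllW P S a) (pow_pos hqp.1.pos 2) h1 hco hpq h2
      rw [h3, card_localV P hqp.1 hqp.2.1 hqp.2.2] at h4
      rw [hM, prod_insert hq, ← h4]
      congr 1
      exact filter_congr fun a _ => hA a

theorem card_allW (P : Par) (S : Finset ℕ) (hS : ∀ p ∈ S, p.Prime ∧ p ≠ 2 ∧ ¬ (p : ℤ) ∣ P.q) (X : ℕ) :
    |(((Icc 1 X).filter (fun a => AllW P S a)).card : ℝ) - (∏ p ∈ S, gg p) * X| ≤ ∏ p ∈ S, (p : ℝ) := by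
  obtain ⟨h1, h2, h3⟩ := allW_spec P S hS
  have h4 := Pool.Agent.Helper92K9.WI.count_bound (fun a => AllW P S a) h1 h2 h3 X
  have e1 : ((∏ p ∈ S, (p - 1) : ℕ) : ℝ) = ∏ p ∈ S, ((p : ℝ) - 1) := by
    rw [Nat.cast_prod]
    refine prod_congr rfl fun p hp => ?_
    rw [Nat.cast_sub (hS p hp).1.one_le, Nat.cast_one]
  have e2 : ((MM S : ℕ) : ℝ) = ∏ p ∈ S, (p : ℝ) ^ 2 := by
    unfold MM
    rw [Nat.cast_prod]
    refine prod_congr rfl fun p _ => ?_
    push_cast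
    ring
  have e3 : ∏ p ∈ S, gg p = (∏ p ∈ S, ((p : ℝ) - 1)) / ∏ p ∈ S, (p : ℝ) ^ 2 := by
    rw [← prod_div_distrib]
    rfl
  rw [e1, e2] at h4
  have e4 : (∏ p ∈ S, gg p) * (X : ℝ) = (∏ p ∈ S, ((p : ℝ) - 1)) * X / ∏ p ∈ S, (p : ℝ) ^ 2 := by
    rw [e3]
    ring
  rw [e4]
  refine h4.trans ?_
  refine prod_le_prod (fun p hp => ?_) (fun p _ => by linarith)
  have : (1 : ℝ) ≤ p := by exact_mod_cast (hS p hp).1.one_le
  linarith

/-- the indicator -/
noncomputable def I1 (P : Par) (a p : ℕ) : ℝ := if Wi P a p then 1 else 0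

lemma prod_I1 (P : Par) (a : ℕ) (S : Finset ℕ) : ∏ p ∈ S, I1 P a p = if AllW P S a then 1 else 0 := by
  split_ifs with h
  · exact prod_eq_one fun p hp => by unfold I1; rw [if_pos (h p hp)]
  · unfold AllW at h
    push Not at h
    obtain ⟨p, hp, hp2⟩ := h
    exact prod_eq_zero hp (by unfold I1; rw [if_neg hp2])

/-- the average over the differences `a ≤ X` -/
noncomputable def Av (X : ℕ) (f : ℕ → ℝ) : ℝ := (∑ a ∈ Icc 1 X, f a) / X

lemma gg_nonneg {p : ℕ} (hp : 1 ≤ p) : 0 ≤ gg p := by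
  unfold gg
  have : (1 : ℝ) ≤ p := by exact_mod_cast hp
  exact div_nonneg (by linarith) (by positivity)

lemma gg_le {p : ℕ} (hp : 1 ≤ p) : gg p ≤ 1 / p := by
  unfold gg
  have h1 : (1 : ℝ) ≤ p := by exact_mod_cast hp
  rw [div_le_div_iff₀ (by positivity) (by positivity)]
  nlinarith

/-- the moments -/
theorem av_prod (P : Par) (S : Finset ℕ) (hS : ∀ p ∈ S, p.Prime ∧ p ≠ 2 ∧ ¬ (p : ℤ) ∣ P.q) {X : ℕ} (hX : 1 ≤ X) (w : ℕ → ℝ)
    (hw : ∀ p, 0 ≤ w p ∧ w p ≤ 1) :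
    |Av X (fun a => ∏ p ∈ S, (w p * I1 P a p)) - ∏ p ∈ S, (w p * gg p)| ≤ (∏ p ∈ S, (p : ℝ)) / X := by
  have hX0 : (0 : ℝ) < X := by exact_mod_cast hX
  have h1 : Av X (fun a => ∏ p ∈ S, (w p * I1 P a p)) =
      (∏ p ∈ S, w p) * ((((Icc 1 X).filter (fun a => AllW P S a)).card : ℝ) / X) := by
    unfold Av
    rw [← mul_div_assoc]
    congr 1
    rw [card_filter, Nat.cast_sum, mul_sum]
    refine sum_congr rfl fun a _ => ?_
    show ∏ p ∈ S, (w p * I1 P a p) = _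
    rw [prod_mul_distrib, prod_I1]
    push_cast
    rfl
  rw [h1, prod_mul_distrib, ← mul_sub, abs_mul]
  have h2 : |∏ p ∈ S, w p| ≤ 1 := by
    rw [abs_of_nonneg (prod_nonneg fun p _ => (hw p).1)]
    exact prod_le_one (fun p _ => (hw p).1) (fun p _ => (hw p).2)
  have h3 := card_allW P S hS X
  have h4 : |(((Icc 1 X).filter (fun a => AllW P S a)).card : ℝ) / X - ∏ p ∈ S, gg p| ≤
      (∏ p ∈ S, (p : ℝ)) / X := by
    have e : (((Icc 1 X).filter (fun a => AllW P S a)).card : ℝ) / X - ∏ p ∈ S, gg p =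
        ((((Icc 1 X).filter (fun a => AllW P S a)).card : ℝ) - (∏ p ∈ S, gg p) * X) / X := by
      field_simp
    rw [e, abs_div, abs_of_pos hX0]
    exact div_le_div_of_nonneg_right h3 hX0.le
  calc _ ≤ 1 * ((∏ p ∈ S, (p : ℝ)) / X) := mul_le_mul h2 h4 (abs_nonneg _) zero_le_one
    _ = _ := one_mul _

lemma av_sum {ι : Type*} (s : Finset ι) (X : ℕ) (f : ι → ℕ → ℝ) :
    Av X (fun a => ∑ i ∈ s, f i a) = ∑ i ∈ s, Av X (f i) := by
  unfold Av
  rw [sum_comm, sum_div]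

lemma av_mul (X : ℕ) (c : ℝ) (f : ℕ → ℝ) : Av X (fun a => c * f a) = c * Av X f := by
  unfold Av
  rw [← mul_sum, mul_div_assoc]

lemma av_sub (X : ℕ) (f g : ℕ → ℝ) : Av X (fun a => f a - g a) = Av X f - Av X g := by
  unfold Av
  rw [sum_sub_distrib, sub_div]

lemma av_abs (X : ℕ) (f : ℕ → ℝ) : |Av X f| ≤ Av X (fun a => |f a|) := by
  unfold Av
  rw [abs_div, Nat.abs_cast]
  exact div_le_div_of_nonneg_right (abs_sum_le_sum_abs _ _) (Nat.cast_nonneg _)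

lemma av_mono (X : ℕ) {f g : ℕ → ℝ} (h : ∀ a, f a ≤ g a) : Av X f ≤ Av X g := by
  unfold Av
  exact div_le_div_of_nonneg_right (sum_le_sum fun a _ => h a) (Nat.cast_nonneg _)

/-- the elementary symmetric sums -/
theorem av_ee (P : Par) (T : Finset ℕ) (hT : ∀ p ∈ T, p.Prime ∧ p ≠ 2 ∧ ¬ (p : ℤ) ∣ P.q) {X : ℕ} (hX : 1 ≤ X) {Y : ℕ}
    (hY : ∀ p ∈ T, p ≤ Y) (hY1 : 1 ≤ Y) (w : ℕ → ℝ) (hw : ∀ p, 0 ≤ w p ∧ w p ≤ 1) (j : ℕ) :
    |Av X (fun a => ee T (fun p => w p * I1 P a p) j) - ee T (fun p => w p * gg p) j| ≤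
      (Y : ℝ) ^ (2 * j) / X := by
  have hY1' : (1 : ℝ) ≤ Y := by exact_mod_cast hY1
  unfold ee
  rw [av_sum, ← sum_sub_distrib]
  refine (abs_sum_le_sum_abs _ _).trans ?_
  have h1 : ∀ S ∈ T.powersetCard j, |Av X (fun a => ∏ p ∈ S, (w p * I1 P a p)) -
      ∏ p ∈ S, (w p * gg p)| ≤ (Y : ℝ) ^ j / X := by
    intro S hS
    rw [mem_powersetCard] at hS
    refine (av_prod P S (fun p hp => hT p (hS.1 hp)) hX w hw).trans ?_
    refine div_le_div_of_nonneg_right ?_ (Nat.cast_nonneg _)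
    calc ∏ p ∈ S, (p : ℝ) ≤ ∏ _p ∈ S, (Y : ℝ) := prod_le_prod (fun p _ => Nat.cast_nonneg p)
          (fun p hp => by exact_mod_cast hY p (hS.1 hp))
      _ = (Y : ℝ) ^ j := by rw [prod_const, hS.2]
  refine (sum_le_sum h1).trans ?_
  rw [sum_const, card_powersetCard, nsmul_eq_mul]
  have h2 : T.card ≤ Y := by
    calc T.card ≤ (Icc 1 Y).card := card_le_card fun p hp => by
          rw [mem_Icc]
          exact ⟨(hT p hp).1.one_le, hY p hp⟩
      _ = Y := by simp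
  have h3 : ((T.card.choose j : ℕ) : ℝ) ≤ (Y : ℝ) ^ j := by
    have h4 : T.card.choose j ≤ Y ^ j := (Nat.choose_le_pow _ _).trans (Nat.pow_le_pow_left h2 _)
    exact_mod_cast h4
  calc ((T.card.choose j : ℕ) : ℝ) * ((Y : ℝ) ^ j / X) ≤ (Y : ℝ) ^ j * ((Y : ℝ) ^ j / X) :=
        mul_le_mul_of_nonneg_right h3 (by positivity)
    _ = (Y : ℝ) ^ (2 * j) / X := by rw [← mul_div_assoc, ← pow_add, two_mul]

/-- **the generating function** -/
theorem gen (P : Par) (T : Finset ℕ) (hT : ∀ p ∈ T, p.Prime ∧ p ≠ 2 ∧ ¬ (p : ℤ) ∣ P.q) {X : ℕ} (hX : 1 ≤ X) {Y : ℕ}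
    (hY : ∀ p ∈ T, p ≤ Y) (hY1 : 1 ≤ Y) (w : ℕ → ℝ) (hw : ∀ p, 0 ≤ w p ∧ w p ≤ 1) (m : ℕ) :
    |Av X (fun a => ∏ p ∈ T, (1 - w p * I1 P a p)) - ∏ p ∈ T, (1 - w p * gg p)| ≤
      (m + 2) * ((Y : ℝ) ^ (2 * (m + 1)) / X) +
        2 * ((∑ p ∈ T, w p * gg p) ^ (m + 1) / (m + 1).factorial) := by
  have hX0 : (0 : ℝ) < X := by exact_mod_cast hX
  have hY1' : (1 : ℝ) ≤ Y := by exact_mod_cast hY1
  have hg : ∀ p ∈ T, 0 ≤ w p * gg p ∧ w p * gg p ≤ 1 := by
    intro p hp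
    have h1 := (hT p hp).1.one_le
    have h2 := gg_nonneg h1
    have h3 := gg_le h1
    have h4 : (1 : ℝ) / p ≤ 1 := by
      rw [div_le_one (by exact_mod_cast h1)]
      exact_mod_cast h1
    have h5 := hw p
    constructor
    · exact mul_nonneg h5.1 h2
    · nlinarith
  have hI : ∀ a, ∀ p ∈ T, 0 ≤ w p * I1 P a p ∧ w p * I1 P a p ≤ 1 := by
    intro a p _
    have h5 := hw p
    unfold I1
    split_ifs
    · rw [mul_one]; exact h5
    · rw [mul_zero]; exact ⟨le_rfl, zero_le_one⟩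
  set EI : ℕ → ℝ := fun j => Av X (fun a => ee T (fun p => w p * I1 P a p) j) with hEI
  set EG : ℕ → ℝ := fun j => ee T (fun p => w p * gg p) j with hEG
  have hE : ∀ j, j ≤ m + 1 → |EI j - EG j| ≤ (Y : ℝ) ^ (2 * (m + 1)) / X := by
    intro j hj
    refine (av_ee P T hT hX hY hY1 w hw j).trans ?_
    refine div_le_div_of_nonneg_right ?_ hX0.le
    exact pow_le_pow_right₀ hY1' (by omega)
  have h1 : |Av X (fun a => ∏ p ∈ T, (1 - w p * I1 P a p)) - ∑ j ∈ range (m + 1), (-1) ^ j * EI j| ≤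
      EI (m + 1) := by
    have e1 : ∑ j ∈ range (m + 1), (-1 : ℝ) ^ j * EI j =
        Av X (fun a => ∑ j ∈ range (m + 1), (-1 : ℝ) ^ j * ee T (fun p => w p * I1 P a p) j) := by
      rw [av_sum]
      exact sum_congr rfl fun j _ => (av_mul _ _ _).symm
    rw [e1, ← av_sub]
    refine (av_abs _ _).trans (av_mono _ fun a => ?_)
    exact bonf_abs T (fun p => w p * I1 P a p) (hI a) m
  have h2 := bonf_abs T (fun p => w p * gg p) hg m
  have h3 : |∑ j ∈ range (m + 1), (-1 : ℝ) ^ j * EI j - ∑ j ∈ range (m + 1), (-1 : ℝ) ^ j * EG j| ≤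
      (m + 1) * ((Y : ℝ) ^ (2 * (m + 1)) / X) := by
    rw [← sum_sub_distrib]
    refine (abs_sum_le_sum_abs _ _).trans ?_
    calc ∑ j ∈ range (m + 1), |(-1 : ℝ) ^ j * EI j - (-1) ^ j * EG j| ≤
        ∑ _j ∈ range (m + 1), (Y : ℝ) ^ (2 * (m + 1)) / X := by
          refine sum_le_sum fun j hj => ?_
          rw [mem_range] at hj
          rw [← mul_sub, abs_mul, abs_pow, abs_neg, abs_one, one_pow, one_mul]
          exact hE j (by omega)
      _ = _ := by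
          rw [sum_const, card_range, nsmul_eq_mul]
          push_cast
          ring
  have h4 := hE (m + 1) le_rfl
  have h5 : EG (m + 1) ≤ (∑ p ∈ T, w p * gg p) ^ (m + 1) / (m + 1).factorial :=
    ee_le T _ (fun p hp => (hg p hp).1) (m + 1)
  have h6 : |∏ p ∈ T, (1 - w p * gg p) - ∑ j ∈ range (m + 1), (-1) ^ j * EG j| ≤ EG (m + 1) := h2
  rw [abs_le] at h1 h3 h4 h6 ⊢
  constructor <;> linarith [h1.1, h1.2, h3.1, h3.2, h4.1, h4.2, h6.1, h6.2]

end Run7.h854.FQ
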