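import Mathlib
import Pool.Agent.Run7.h854.FQ.Cnt

set_option autoImplicit false

/-!
# Truncated expansions with complex weights
-/

namespace Run7.h854.FQ

open Finset Filter Topology
open scoped Classical
open Run7.h854.WP
open Pool.Agent.Helper92K9.WI (gg)

/-- the elementary symmetric sum of order `j` -/
noncomputable def ec {ι : Type*} (T : Finset ι) (x : ι → ℂ) (j : ℕ) : ℂ :=
  ∑ S ∈ T.powersetCard j, ∏ p ∈ S, x p

lemma ec_zero {ι : Type*} (T : Finset ι) (x : ι → ℂ) : ec T x 0 = 1 := by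
  unfold ec
  rw [powersetCard_zero, sum_singleton, prod_empty]

lemma ec_insert {ι : Type*} [DecidableEq ι] {T : Finset ι} {q : ι} (hq : q ∉ T) (x : ι → ℂ) (j : ℕ) :
    ec (insert q T) x (j + 1) = ec T x (j + 1) + x q * ec T x j := by
  unfold ec
  rw [powersetCard_succ_insert hq, sum_union, sum_image, mul_sum]
  · congr 1
    refine sum_congr rfl fun S hS => ?_
    rw [prod_insert (fun h => hq ((mem_powersetCard.1 hS).1 h))]
  · intro S hS S' hS' h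
    have h1 : q ∉ S := fun h => hq ((mem_powersetCard.1 hS).1 h)
    have h2 : q ∉ S' := fun h => hq ((mem_powersetCard.1 hS').1 h)
    rw [← erase_insert h1, ← erase_insert h2, h]
  · rw [disjoint_left]
    intro S hS hS'
    obtain ⟨S'', _, rfl⟩ := mem_image.1 hS'
    exact hq ((mem_powersetCard.1 hS).1 (mem_insert_self _ _))

lemma norm_prod_le {ι : Type*} (T : Finset ι) (x : ι → ℂ) (hx : ∀ p ∈ T, ‖x p‖ ≤ 1) :
    ‖∏ p ∈ T, x p‖ ≤ 1 := by
  rw [norm_prod]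
  exact prod_le_one (fun p _ => norm_nonneg _) hx

/-- the remainder of the expansion -/
theorem bonfC {ι : Type*} [DecidableEq ι] (T : Finset ι) (x : ι → ℂ) (hx : ∀ p ∈ T, ‖1 - x p‖ ≤ 1) :
    ∀ m : ℕ, ‖∑ j ∈ range (m + 1), (-1) ^ j * ec T x j - ∏ p ∈ T, (1 - x p)‖ ≤
      ee T (fun p => ‖x p‖) (m + 1) := by
  induction T using Finset.induction_on with
  | empty =>
    intro m
    have h1 : ∀ j : ℕ, ec (∅ : Finset ι) x (j + 1) = 0 := by
      intro j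
      unfold ec
      rw [powersetCard_eq_empty.2 (by simp), sum_empty]
    have h2 : ∑ j ∈ range (m + 1), (-1 : ℂ) ^ j * ec (∅ : Finset ι) x j = 1 := by
      rw [sum_range_succ', ec_zero]
      simp [h1]
    rw [h2]
    simp only [prod_empty, sub_self, norm_zero]
    exact ee_nonneg (fun p hp => absurd hp (notMem_empty _)) _
  | insert q T hq ih =>
    have hxT : ∀ p ∈ T, ‖1 - x p‖ ≤ 1 := fun p hp => hx p (mem_insert_of_mem hp)
    have ihT := ih hxT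
    have hS : ∀ m : ℕ, ∑ j ∈ range (m + 1 + 1), (-1 : ℂ) ^ j * ec (insert q T) x j =
        ∑ j ∈ range (m + 1 + 1), (-1 : ℂ) ^ j * ec T x j -
          x q * ∑ j ∈ range (m + 1), (-1 : ℂ) ^ j * ec T x j := by
      intro m
      rw [sum_range_succ' _ (m + 1), sum_range_succ' (fun j => (-1 : ℂ) ^ j * ec T x j) (m + 1),
        ec_zero, ec_zero, mul_sum]
      have h3 : ∀ j, (-1 : ℂ) ^ (j + 1) * ec (insert q T) x (j + 1) =
          (-1 : ℂ) ^ (j + 1) * ec T x (j + 1) - x q * ((-1 : ℂ) ^ j * ec T x j) := by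
        intro j
        rw [ec_insert hq, pow_succ]
        ring
      rw [sum_congr rfl (fun j _ => h3 j), sum_sub_distrib]
      ring
    intro m
    rw [prod_insert hq]
    rcases m with _ | m
    · have h1 := ihT 0
      have h3 := ee_insert hq (fun p => ‖x p‖) 0
      simp only [zero_add, range_one, sum_singleton, pow_zero, one_mul, ec_zero, ee_zero, mul_one] at h1 h3 ⊢
      rw [h3]
      have h4 : (1 : ℂ) - (1 - x q) * ∏ p ∈ T, (1 - x p) =
          (1 - ∏ p ∈ T, (1 - x p)) + x q * ∏ p ∈ T, (1 - x p) := by ring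
      rw [h4]
      refine (norm_add_le _ _).trans ?_
      rw [norm_mul]
      have h5 := norm_prod_le T (fun p => 1 - x p) hxT
      have h6 : ‖x q‖ * ‖∏ p ∈ T, (1 - x p)‖ ≤ ‖x q‖ * 1 := mul_le_mul_of_nonneg_left h5 (norm_nonneg _)
      linarith
    · have h1 := ihT (m + 1)
      have h3 := ihT m
      rw [hS m, ee_insert hq]
      set P := ∏ p ∈ T, (1 - x p)
      set A := ∑ j ∈ range (m + 1 + 1), (-1 : ℂ) ^ j * ec T x j
      set B := ∑ j ∈ range (m + 1), (-1 : ℂ) ^ j * ec T x j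
      have h5 : A - x q * B - (1 - x q) * P = (A - P) - x q * (B - P) := by ring
      rw [h5]
      refine (norm_sub_le _ _).trans ?_
      rw [norm_mul]
      have := mul_le_mul_of_nonneg_left h3 (norm_nonneg (x q))
      linarith

/-- the average of a complex function -/
noncomputable def AvC (X : ℕ) (f : ℕ → ℂ) : ℂ := (∑ a ∈ Icc 1 X, f a) / X

lemma avC_sum {ι : Type*} (s : Finset ι) (X : ℕ) (f : ι → ℕ → ℂ) :
    AvC X (fun a => ∑ i ∈ s, f i a) = ∑ i ∈ s, AvC X (f i) := by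
  unfold AvC
  rw [sum_comm, sum_div]

lemma avC_mul (X : ℕ) (c : ℂ) (f : ℕ → ℂ) : AvC X (fun a => c * f a) = c * AvC X f := by
  unfold AvC
  rw [← mul_sum, mul_div_assoc]

lemma avC_sub (X : ℕ) (f g : ℕ → ℂ) : AvC X (fun a => f a - g a) = AvC X f - AvC X g := by
  unfold AvC
  rw [sum_sub_distrib, sub_div]

lemma avC_norm (X : ℕ) (f : ℕ → ℂ) : ‖AvC X f‖ ≤ Av X (fun a => ‖f a‖) := by
  unfold AvC Av
  rw [norm_div, Complex.norm_natCast]
  exact div_le_div_of_nonneg_right (norm_sum_le _ _) (Nat.cast_nonneg _)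

lemma avC_ofReal (X : ℕ) (f : ℕ → ℝ) : AvC X (fun a => (f a : ℂ)) = ((Av X f : ℝ) : ℂ) := by
  unfold AvC Av
  push_cast
  rfl

lemma ec_smul {ι : Type*} (T : Finset ι) (w : ℂ) (x : ι → ℝ) (j : ℕ) :
    ec T (fun p => w * (x p : ℂ)) j = w ^ j * ((ee T x j : ℝ) : ℂ) := by
  unfold ec ee
  push_cast
  rw [mul_sum]
  refine sum_congr rfl fun S hS => ?_
  rw [prod_mul_distrib, prod_const, (mem_powersetCard.1 hS).2]

/-- **the characteristic function** -/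
theorem genC (P : Par) (T : Finset ℕ) (hT : ∀ p ∈ T, p.Prime ∧ p ≠ 2 ∧ ¬ (p : ℤ) ∣ P.q) {X : ℕ} (hX : 1 ≤ X)
    {Y : ℕ} (hY : ∀ p ∈ T, p ≤ Y) (hY1 : 1 ≤ Y) (w : ℂ) (hw : ‖w‖ ≤ 1) (hw1 : ‖1 - w‖ ≤ 1) (m : ℕ) :
    ‖AvC X (fun a => ∏ p ∈ T, (1 - w * (I1 P a p : ℂ))) - ∏ p ∈ T, (1 - w * (gg p : ℂ))‖ ≤
      (m + 2) * ((Y : ℝ) ^ (2 * (m + 1)) / X) +
        2 * ((‖w‖ * ∑ p ∈ T, gg p) ^ (m + 1) / (m + 1).factorial) := by
  have hX0 : (0 : ℝ) < X := by exact_mod_cast hX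
  have hY1' : (1 : ℝ) ≤ Y := by exact_mod_cast hY1
  have hg : ∀ p ∈ T, 0 ≤ gg p ∧ gg p ≤ 1 := by
    intro p hp
    have h1 := (hT p hp).1.one_le
    have h3 := gg_le h1
    have h4 : (1 : ℝ) / p ≤ 1 := by
      rw [div_le_one (by exact_mod_cast h1)]
      exact_mod_cast h1
    exact ⟨gg_nonneg h1, h3.trans h4⟩
  have hI : ∀ a p, 0 ≤ I1 P a p ∧ I1 P a p ≤ 1 := by
    intro a p
    unfold I1
    split_ifs <;> norm_num
  have hcx : ∀ x : ℝ, 0 ≤ x → x ≤ 1 → ‖1 - w * (x : ℂ)‖ ≤ 1 := by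
    intro x h0 h1
    have e : (1 : ℂ) - w * (x : ℂ) = ((1 - x : ℝ) : ℂ) + (x : ℂ) * (1 - w) := by
      push_cast
      ring
    rw [e]
    refine (norm_add_le _ _).trans ?_
    rw [norm_mul, Complex.norm_real, Complex.norm_real, Real.norm_of_nonneg (by linarith), Real.norm_of_nonneg h0]
    nlinarith [norm_nonneg (1 - w)]
  set EI : ℕ → ℝ := fun j => Av X (fun a => ee T (fun p => I1 P a p) j) with hEI
  set EG : ℕ → ℝ := fun j => ee T gg j with hEG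
  have hE : ∀ j, j ≤ m + 1 → |EI j - EG j| ≤ (Y : ℝ) ^ (2 * (m + 1)) / X := by
    intro j hj
    have h1 := av_ee P T hT hX hY hY1 (fun _ => 1) (fun _ => ⟨zero_le_one, le_rfl⟩) j
    simp only [one_mul] at h1
    refine h1.trans ?_
    refine div_le_div_of_nonneg_right ?_ hX0.le
    exact pow_le_pow_right₀ hY1' (by omega)
  have hee : ∀ (x : ℕ → ℝ) (j : ℕ), (∀ p ∈ T, 0 ≤ x p) →
      ee T (fun p => ‖w * (x p : ℂ)‖) j = ‖w‖ ^ j * ee T x j := by
    intro x j hx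
    unfold ee
    rw [mul_sum]
    refine sum_congr rfl fun S hS => ?_
    have h2 : ∀ p ∈ S, ‖w * (x p : ℂ)‖ = ‖w‖ * x p := by
      intro p hp
      rw [norm_mul, Complex.norm_real, Real.norm_of_nonneg (hx p ((mem_powersetCard.1 hS).1 hp))]
    rw [prod_congr rfl h2, prod_mul_distrib, prod_const, (mem_powersetCard.1 hS).2]
  have h1 : ‖∑ j ∈ range (m + 1), (-1) ^ j * (w ^ j * ((EI j : ℝ) : ℂ)) -
      AvC X (fun a => ∏ p ∈ T, (1 - w * (I1 P a p : ℂ)))‖ ≤ ‖w‖ ^ (m + 1) * EI (m + 1) := by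
    have e1 : ∑ j ∈ range (m + 1), (-1 : ℂ) ^ j * (w ^ j * ((EI j : ℝ) : ℂ)) =
        AvC X (fun a => ∑ j ∈ range (m + 1), (-1 : ℂ) ^ j * ec T (fun p => w * (I1 P a p : ℂ)) j) := by
      rw [avC_sum]
      refine sum_congr rfl fun j _ => ?_
      have e2 : (fun a => (-1 : ℂ) ^ j * ec T (fun p => w * (I1 P a p : ℂ)) j) =
          fun a => ((-1 : ℂ) ^ j * w ^ j) * ((ee T (fun p => I1 P a p) j : ℝ) : ℂ) := by
        funext a
        rw [ec_smul]
        ring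
      rw [e2, avC_mul, avC_ofReal]
      ring
    rw [e1, ← avC_sub]
    refine (avC_norm _ _).trans ?_
    have e3 : ‖w‖ ^ (m + 1) * EI (m + 1) = Av X (fun a => ‖w‖ ^ (m + 1) * ee T (fun p => I1 P a p) (m + 1)) :=
      (av_mul _ _ _).symm
    rw [e3]
    refine av_mono _ fun a => ?_
    have h2 := bonfC T (fun p => w * (I1 P a p : ℂ)) (fun p _ => hcx _ (hI a p).1 (hI a p).2) m
    rwa [hee _ _ (fun p _ => (hI a p).1)] at h2
  have h2 : ‖∑ j ∈ range (m + 1), (-1) ^ j * (w ^ j * ((EG j : ℝ) : ℂ)) -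
      ∏ p ∈ T, (1 - w * (gg p : ℂ))‖ ≤ ‖w‖ ^ (m + 1) * EG (m + 1) := by
    have h3 := bonfC T (fun p => w * (gg p : ℂ)) (fun p hp => hcx _ (hg p hp).1 (hg p hp).2) m
    rw [hee _ _ (fun p hp => (hg p hp).1)] at h3
    refine le_trans (le_of_eq ?_) h3
    congr 2
    exact sum_congr rfl fun j _ => by rw [ec_smul]
  have h3 : ‖∑ j ∈ range (m + 1), (-1) ^ j * (w ^ j * ((EI j : ℝ) : ℂ)) -
      ∑ j ∈ range (m + 1), (-1) ^ j * (w ^ j * ((EG j : ℝ) : ℂ))‖ ≤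
      (m + 1) * ((Y : ℝ) ^ (2 * (m + 1)) / X) := by
    rw [← sum_sub_distrib]
    refine (norm_sum_le _ _).trans ?_
    calc ∑ j ∈ range (m + 1), ‖(-1 : ℂ) ^ j * (w ^ j * ((EI j : ℝ) : ℂ)) -
          (-1) ^ j * (w ^ j * ((EG j : ℝ) : ℂ))‖ ≤
        ∑ _j ∈ range (m + 1), (Y : ℝ) ^ (2 * (m + 1)) / X := by
          refine sum_le_sum fun j hj => ?_
          rw [mem_range] at hj
          have e : (-1 : ℂ) ^ j * (w ^ j * ((EI j : ℝ) : ℂ)) - (-1) ^ j * (w ^ j * ((EG j : ℝ) : ℂ)) =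
              (-1) ^ j * (w ^ j * ((EI j - EG j : ℝ) : ℂ)) := by
            push_cast
            ring
          rw [e, norm_mul, norm_mul, norm_pow, norm_pow, norm_neg, norm_one, one_pow, one_mul,
            Complex.norm_real, Real.norm_eq_abs]
          have h4 := hE j (by omega)
          have h5 : ‖w‖ ^ j ≤ 1 := pow_le_one₀ (norm_nonneg _) hw
          calc ‖w‖ ^ j * |EI j - EG j| ≤ 1 * |EI j - EG j| := mul_le_mul_of_nonneg_right h5 (abs_nonneg _)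
            _ ≤ _ := by rw [one_mul]; exact h4
      _ = _ := by
          rw [sum_const, card_range, nsmul_eq_mul]
          push_cast
          ring
  have h4 := hE (m + 1) le_rfl
  have h5 : ‖w‖ ^ (m + 1) * EG (m + 1) ≤ (‖w‖ * ∑ p ∈ T, gg p) ^ (m + 1) / (m + 1).factorial := by
    have h6 := ee_le T gg (fun p hp => (hg p hp).1) (m + 1)
    have h7 := mul_le_mul_of_nonneg_left h6 (pow_nonneg (norm_nonneg w) (m + 1))
    rw [mul_pow, mul_div_assoc]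
    exact h7
  have h6 : ‖w‖ ^ (m + 1) * EI (m + 1) ≤ (Y : ℝ) ^ (2 * (m + 1)) / X + ‖w‖ ^ (m + 1) * EG (m + 1) := by
    have h7 : ‖w‖ ^ (m + 1) ≤ 1 := pow_le_one₀ (norm_nonneg _) hw
    have h8 := (abs_le.1 h4).2
    have h9 : 0 ≤ ‖w‖ ^ (m + 1) := pow_nonneg (norm_nonneg w) _
    have h10 : 0 ≤ (Y : ℝ) ^ (2 * (m + 1)) / X := by positivity
    calc ‖w‖ ^ (m + 1) * EI (m + 1) ≤ ‖w‖ ^ (m + 1) * ((Y : ℝ) ^ (2 * (m + 1)) / X + EG (m + 1)) :=
          mul_le_mul_of_nonneg_left (by linarith) h9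
      _ = ‖w‖ ^ (m + 1) * ((Y : ℝ) ^ (2 * (m + 1)) / X) + ‖w‖ ^ (m + 1) * EG (m + 1) := by ring
      _ ≤ 1 * ((Y : ℝ) ^ (2 * (m + 1)) / X) + ‖w‖ ^ (m + 1) * EG (m + 1) := by gcongr
      _ = _ := by rw [one_mul]
  set A := AvC X (fun a => ∏ p ∈ T, (1 - w * (I1 P a p : ℂ)))
  set SI := ∑ j ∈ range (m + 1), (-1 : ℂ) ^ j * (w ^ j * ((EI j : ℝ) : ℂ))
  set SG := ∑ j ∈ range (m + 1), (-1 : ℂ) ^ j * (w ^ j * ((EG j : ℝ) : ℂ))
  set G := ∏ p ∈ T, (1 - w * (gg p : ℂ))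
  have h7 : A - G = -(SI - A) + (SI - SG) + (SG - G) := by ring
  rw [h7]
  have h8 : ‖-(SI - A) + (SI - SG) + (SG - G)‖ ≤ ‖SI - A‖ + ‖SI - SG‖ + ‖SG - G‖ := by
    refine (norm_add_le _ _).trans ?_
    refine add_le_add ((norm_add_le _ _).trans ?_) le_rfl
    rw [norm_neg]
  refine h8.trans ?_
  linarith

lemma prod_closeC {ι : Type*} [DecidableEq ι] (T : Finset ι) (a b : ι → ℂ) (ha : ∀ p ∈ T, ‖a p‖ ≤ 1)
    (hb : ∀ p ∈ T, ‖b p‖ ≤ 1) : ‖∏ p ∈ T, a p - ∏ p ∈ T, b p‖ ≤ ∑ p ∈ T, ‖a p - b p‖ := by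
  induction T using Finset.induction_on with
  | empty => simp
  | insert q T hq ih =>
    have haT : ∀ p ∈ T, ‖a p‖ ≤ 1 := fun p hp => ha p (mem_insert_of_mem hp)
    have hbT : ∀ p ∈ T, ‖b p‖ ≤ 1 := fun p hp => hb p (mem_insert_of_mem hp)
    have ihT := ih haT hbT
    have haq := ha q (mem_insert_self _ _)
    rw [prod_insert hq, prod_insert hq, sum_insert hq]
    have h2 := norm_prod_le T b hbT
    have h3 : a q * ∏ p ∈ T, a p - b q * ∏ p ∈ T, b p =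
        a q * (∏ p ∈ T, a p - ∏ p ∈ T, b p) + (a q - b q) * ∏ p ∈ T, b p := by ring
    rw [h3]
    refine (norm_add_le _ _).trans ?_
    rw [norm_mul, norm_mul]
    have h4 : ‖a q‖ * ‖∏ p ∈ T, a p - ∏ p ∈ T, b p‖ ≤ 1 * ‖∏ p ∈ T, a p - ∏ p ∈ T, b p‖ :=
      mul_le_mul_of_nonneg_right haq (norm_nonneg _)
    have h5 : ‖a q - b q‖ * ‖∏ p ∈ T, b p‖ ≤ ‖a q - b q‖ * 1 :=
      mul_le_mul_of_nonneg_left h2 (norm_nonneg _)
    linarith

/-- the product of the local factors -/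
theorem prod_expC (T : Finset ℕ) (hT : ∀ p ∈ T, p.Prime) (w : ℂ) (hw : ‖w‖ ≤ 1) (hw1 : ‖1 - w‖ ≤ 1)
    (hre : 0 ≤ w.re) :
    ‖∏ p ∈ T, (1 - w * (gg p : ℂ)) - Complex.exp (-(w * ((∑ p ∈ T, gg p : ℝ) : ℂ)))‖ ≤
      ‖w‖ ^ 2 * ∑' n : ℕ, 1 / (n : ℝ) ^ 2 := by
  have hs : Summable (fun n : ℕ => 1 / (n : ℝ) ^ 2) := Real.summable_one_div_nat_pow.2 (by norm_num)
  have hg : ∀ p ∈ T, 0 ≤ gg p ∧ gg p ≤ 1 ∧ gg p ≤ 1 / p := by
    intro p hp
    have h1 := (hT p hp).one_le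
    have h3 := gg_le h1
    have h4 : (1 : ℝ) / p ≤ 1 := by
      rw [div_le_one (by exact_mod_cast h1)]
      exact_mod_cast h1
    exact ⟨gg_nonneg h1, h3.trans h4, h3⟩
  have e : Complex.exp (-(w * ((∑ p ∈ T, gg p : ℝ) : ℂ))) = ∏ p ∈ T, Complex.exp (-(w * (gg p : ℂ))) := by
    rw [← Complex.exp_sum]
    congr 1
    push_cast
    rw [mul_sum, sum_neg_distrib]
  rw [e]
  refine (prod_closeC T _ _ (fun p hp => ?_) (fun p hp => ?_)).trans ?_
  · have e1 : (1 : ℂ) - w * (gg p : ℂ) = ((1 - gg p : ℝ) : ℂ) + (gg p : ℂ) * (1 - w) := by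
      push_cast
      ring
    rw [e1]
    refine (norm_add_le _ _).trans ?_
    have := hg p hp
    rw [norm_mul, Complex.norm_real, Complex.norm_real, Real.norm_of_nonneg (by linarith), Real.norm_of_nonneg this.1]
    nlinarith [norm_nonneg (1 - w)]
  · rw [Complex.norm_exp]
    apply Real.exp_le_one_iff.2
    rw [Complex.neg_re, Complex.mul_re, Complex.ofReal_re, Complex.ofReal_im, mul_zero, sub_zero]
    have := mul_nonneg hre (hg p hp).1
    linarith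
  · have h1 : ∀ p ∈ T, ‖1 - w * (gg p : ℂ) - Complex.exp (-(w * (gg p : ℂ)))‖ ≤ ‖w‖ ^ 2 * (1 / (p : ℝ) ^ 2) := by
      intro p hp
      obtain ⟨g0, g1, g2⟩ := hg p hp
      have hn : ‖-(w * (gg p : ℂ))‖ ≤ 1 := by
        rw [norm_neg, norm_mul, Complex.norm_real, Real.norm_of_nonneg g0]
        nlinarith [norm_nonneg w]
      have h2 := Complex.norm_exp_sub_one_sub_id_le hn
      have e2 : (1 : ℂ) - w * (gg p : ℂ) - Complex.exp (-(w * (gg p : ℂ))) =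
          -(Complex.exp (-(w * (gg p : ℂ))) - 1 - -(w * (gg p : ℂ))) := by ring
      rw [e2, norm_neg]
      refine h2.trans ?_
      rw [norm_neg, norm_mul, Complex.norm_real, Real.norm_of_nonneg g0, mul_pow]
      refine mul_le_mul_of_nonneg_left ?_ (by positivity)
      calc gg p ^ 2 ≤ (1 / (p : ℝ)) ^ 2 := pow_le_pow_left₀ g0 g2 2
        _ = 1 / (p : ℝ) ^ 2 := by rw [one_div_pow]
    calc ∑ p ∈ T, ‖1 - w * (gg p : ℂ) - Complex.exp (-(w * (gg p : ℂ)))‖ ≤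
          ∑ p ∈ T, ‖w‖ ^ 2 * (1 / (p : ℝ) ^ 2) := sum_le_sum h1
      _ = ‖w‖ ^ 2 * ∑ p ∈ T, 1 / (p : ℝ) ^ 2 := by rw [mul_sum]
      _ ≤ _ := by
          refine mul_le_mul_of_nonneg_left ?_ (by positivity)
          exact hs.sum_le_tsum _ fun n _ => by positivity

end Run7.h854.FQ
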