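import Mathlib
import Pool.Agent.Run7.h854.FQ.Cnt

set_option autoImplicit false

/-!
# The joint law of the numbers of good primes
-/

namespace Run7.h854.FQ

open Finset Filter Topology
open scoped Classical
open Run7.h854.WP
open Pool.Agent.Helper92K9.WI (gg)

/-- the mixed generating function -/
noncomputable def fac {r : ℕ} (N : Fin r → ℕ → ℕ) (D : Finset (Fin r))
    (θ : Fin r → ℝ) (k : Fin r → ℕ) (s : Fin r) (x : ℕ) : ℝ :=
  if s ∈ D then (if N s x = k s then 1 else 0) else θ s ^ N s x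

/-- the limit -/
noncomputable def LL {r : ℕ} (lam : Fin r → ℝ) (D : Finset (Fin r)) (θ : Fin r → ℝ)
    (k : Fin r → ℕ) (s : Fin r) : ℝ :=
  if s ∈ D then Real.exp (-lam s) * lam s ^ k s / (k s).factorial
    else Real.exp (-(lam s * (1 - θ s)))

theorem joint {r : ℕ} (X : ℕ → ℕ) (N : ℕ → Fin r → ℕ → ℕ) (lam : Fin r → ℝ) (hlam : ∀ s, 0 ≤ lam s)
    (h0 : ∀ θ : Fin r → ℝ, (∀ s, 0 ≤ θ s ∧ θ s ≤ 1) →
      Tendsto (fun n => Av (X n) (fun a => ∏ s, θ s ^ N n s a)) atTop
        (𝓝 (∏ s, Real.exp (-(lam s * (1 - θ s)))))) (D : Finset (Fin r)) :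
    ∀ θ : Fin r → ℝ, (∀ s, 0 ≤ θ s ∧ θ s ≤ 1) → ∀ k : Fin r → ℕ,
    Tendsto (fun n => Av (X n) (fun x => ∏ s, fac (N n) D θ k s x)) atTop
      (𝓝 (∏ s, LL lam D θ k s)) := by
  induction D using Finset.induction_on with
  | empty =>
    intro θ hθ k
    have h := h0 θ hθ
    simp only [fac, LL, notMem_empty, if_false]
    exact h
  | insert s0 D hs0 ih =>
    intro θ hθ k
    -- the other factors
    set R : ℕ → ℕ → ℝ := fun n x => ∏ s ∈ univ.erase s0, fac (N n) D θ k s x with hR
    have hR0 : ∀ n x, 0 ≤ R n x := by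
      intro n x
      rw [hR]
      refine Finset.prod_nonneg fun s _ => ?_
      unfold fac
      split_ifs
      · norm_num
      · norm_num
      · exact pow_nonneg (hθ s).1 _
    set Nn : ℕ → ℕ → ℕ := fun n x => N n s0 x with hNn
    set μ := ∏ s ∈ univ.erase s0, LL lam D θ k s with hμ
    have hμ0 : 0 ≤ μ := by
      rw [hμ]
      refine Finset.prod_nonneg fun s _ => ?_
      unfold LL
      have := hlam s
      split_ifs
      · positivity
      · positivity
    have hAv0 : ∀ (Z : ℕ) (f : ℕ → ℝ), (∀ x, 0 ≤ f x) → 0 ≤ Av Z f := by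
      intro Z f hf
      unfold Av
      exact div_nonneg (sum_nonneg fun x _ => hf x) (Nat.cast_nonneg _)
    have hcont := cont_gf
      (fun n j => Av (X n) (fun x => (if Nn n x = j then 1 else 0) * R n x))
      (fun n ϑ => Av (X n) (fun x => ϑ ^ (Nn n x) * R n x)) μ (lam s0) (hlam s0) hμ0
      (fun n j => hAv0 _ _ fun x => mul_nonneg (by split_ifs <;> norm_num) (hR0 n x))
      (fun n ϑ hϑ0 hϑ1 => ?_) (fun ϑ hϑ0 hϑ1 => ?_) (k s0)
    · -- the conclusion
      have e1 : ∀ n, Av (X n) (fun x => ∏ s, fac (N n) (insert s0 D) θ k s x) =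
          Av (X n) (fun x => (if Nn n x = k s0 then 1 else 0) * R n x) := by
        intro n
        congr 1
        funext x
        rw [← Finset.mul_prod_erase univ _ (mem_univ s0)]
        congr 1
        · unfold fac
          rw [if_pos (mem_insert_self _ _)]
        · refine Finset.prod_congr rfl fun s hs => ?_
          have hss : s ≠ s0 := (mem_erase.1 hs).1
          unfold fac
          by_cases hsD : s ∈ D
          · rw [if_pos hsD, if_pos (mem_insert_of_mem hsD)]
          · rw [if_neg hsD, if_neg (by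
              rw [mem_insert]
              push Not
              exact ⟨hss, hsD⟩)]
      have e2 : ∏ s, LL lam (insert s0 D) θ k s =
          μ * (Real.exp (-lam s0) * lam s0 ^ (k s0) / (k s0).factorial) := by
        rw [← Finset.mul_prod_erase univ _ (mem_univ s0), hμ]
        have e3 : LL lam (insert s0 D) θ k s0 =
            Real.exp (-lam s0) * lam s0 ^ (k s0) / (k s0).factorial := by
          unfold LL
          rw [if_pos (mem_insert_self _ _)]
        have e4 : ∏ s ∈ univ.erase s0, LL lam (insert s0 D) θ k s =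
            ∏ s ∈ univ.erase s0, LL lam D θ k s := by
          refine Finset.prod_congr rfl fun s hs => ?_
          have hss : s ≠ s0 := (mem_erase.1 hs).1
          unfold LL
          by_cases hsD : s ∈ D
          · rw [if_pos hsD, if_pos (mem_insert_of_mem hsD)]
          · rw [if_neg hsD, if_neg (by
              rw [mem_insert]
              push Not
              exact ⟨hss, hsD⟩)]
        rw [e3, e4]
        ring
      rw [e2]
      exact hcont.congr fun n => (e1 n).symm
    · -- the generating function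
      have h2 : HasSum (fun j => ∑ x ∈ Icc 1 (X n),
          (if Nn n x = j then (1 : ℝ) else 0) * R n x * ϑ ^ j)
          (∑ x ∈ Icc 1 (X n), ϑ ^ (Nn n x) * R n x) := by
        refine hasSum_sum fun x _ => ?_
        have h3 := hasSum_ite_eq (Nn n x) (ϑ ^ (Nn n x) * R n x)
        have h4 : (fun j => (if Nn n x = j then (1 : ℝ) else 0) * R n x * ϑ ^ j) =
            fun j => if j = Nn n x then ϑ ^ (Nn n x) * R n x else 0 := by
          funext j
          by_cases hj : j = Nn n x
          · rw [if_pos hj, if_pos hj.symm, hj]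
            ring
          · rw [if_neg hj, if_neg (fun h => hj h.symm)]
            ring
        rw [h4]
        exact h3
      have h5 := h2.div_const ((X n : ℝ))
      have h6 : (fun j => Av (X n) (fun x => (if Nn n x = j then 1 else 0) * R n x) * ϑ ^ j) =
          fun j => (∑ x ∈ Icc 1 (X n),
          (if Nn n x = j then (1 : ℝ) else 0) * R n x * ϑ ^ j) / (X n : ℝ) := by
        funext j
        unfold Av
        rw [div_mul_eq_mul_div, Finset.sum_mul]
      change HasSum (fun j => Av (X n)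
        (fun x => (if Nn n x = j then 1 else 0) * R n x) * ϑ ^ j) _
      rw [h6]
      exact h5
    · -- the limit of the generating function
      have h2 := ih (Function.update θ s0 ϑ) (fun s => by
        by_cases hs : s = s0
        · rw [hs, Function.update_self]
          exact ⟨hϑ0, hϑ1⟩
        · rw [Function.update_of_ne hs]
          exact hθ s) k
      have e1 : ∀ n, Av (X n)
          (fun x => ∏ s, fac (N n) D (Function.update θ s0 ϑ) k s x) =
          Av (X n) (fun x => ϑ ^ (Nn n x) * R n x) := by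
        intro n
        congr 1
        funext x
        rw [← Finset.mul_prod_erase univ _ (mem_univ s0)]
        congr 1
        · unfold fac
          rw [if_neg hs0, Function.update_self]
        · refine Finset.prod_congr rfl fun s hs => ?_
          have hss : s ≠ s0 := (mem_erase.1 hs).1
          unfold fac
          rw [Function.update_of_ne hss]
      have e2 : ∏ s, LL lam D (Function.update θ s0 ϑ) k s =
          μ * Real.exp (-(lam s0 * (1 - ϑ))) := by
        rw [← Finset.mul_prod_erase univ _ (mem_univ s0), hμ]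
        have e3 : LL lam D (Function.update θ s0 ϑ) k s0 = Real.exp (-(lam s0 * (1 - ϑ))) := by
          unfold LL
          rw [if_neg hs0, Function.update_self]
        have e4 : ∏ s ∈ univ.erase s0, LL lam D (Function.update θ s0 ϑ) k s =
            ∏ s ∈ univ.erase s0, LL lam D θ k s := by
          refine Finset.prod_congr rfl fun s hs => ?_
          have hss : s ≠ s0 := (mem_erase.1 hs).1
          unfold LL
          rw [Function.update_of_ne hss]
        rw [e3, e4, mul_comm]
      rw [← e2]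
      exact h2.congr fun n => e1 n

/-- the union of the sets -/
def UU {r : ℕ} (T : Fin r → Finset ℕ) : Finset ℕ := univ.biUnion T

/-- the weights -/
noncomputable def wt {r : ℕ} (T : Fin r → Finset ℕ) (θ : Fin r → ℝ) (p : ℕ) : ℝ :=
  ∑ s, if p ∈ T s then 1 - θ s else 0

lemma wt_eq {r : ℕ} {T : Fin r → Finset ℕ} (hd : Pairwise fun s s' => Disjoint (T s) (T s'))
    (θ : Fin r → ℝ) {s : Fin r} {p : ℕ} (hp : p ∈ T s) : wt T θ p = 1 - θ s := by
  unfold wt
  rw [Finset.sum_eq_single s]
  · rw [if_pos hp]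
  · intro s' _ hs'
    rw [if_neg]
    intro hp'
    exact Finset.disjoint_left.1 (hd hs') hp' hp
  · intro h
    exact absurd (mem_univ s) h

lemma wt_mem {r : ℕ} {T : Fin r → Finset ℕ} (hd : Pairwise fun s s' => Disjoint (T s) (T s'))
    {θ : Fin r → ℝ} (hθ : ∀ s, 0 ≤ θ s ∧ θ s ≤ 1) (p : ℕ) : 0 ≤ wt T θ p ∧ wt T θ p ≤ 1 := by
  by_cases h : ∃ s, p ∈ T s
  · obtain ⟨s, hs⟩ := h
    rw [wt_eq hd θ hs]
    obtain ⟨h1, h2⟩ := hθ s
    constructor <;> linarith
  · push Not at h
    unfold wt
    rw [Finset.sum_eq_zero fun s _ => by rw [if_neg (h s)]]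
    norm_num

/-- the number of the good primes in `T` -/
noncomputable def cnt (P : Par) (T : Finset ℕ) (a : ℕ) : ℕ := (T.filter (fun p => Wi P a p)).card

/-- the generating function as a product -/
lemma prod_theta {r : ℕ} {T : Fin r → Finset ℕ} (hd : Pairwise fun s s' => Disjoint (T s) (T s'))
    (θ : Fin r → ℝ) (P : Par) (a : ℕ) :
    ∏ p ∈ UU T, (1 - wt T θ p * I1 P a p) = ∏ s, θ s ^ cnt P (T s) a := by
  unfold UU
  rw [Finset.prod_biUnion (fun s _ s' _ hss => hd hss)]
  refine Finset.prod_congr rfl fun s _ => ?_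
  have h1 : ∀ p ∈ T s, (1 - wt T θ p * I1 P a p) = if Wi P a p then θ s else 1 := by
    intro p hp
    rw [wt_eq hd θ hp]
    unfold I1
    split_ifs <;> ring
  rw [Finset.prod_congr rfl h1]
  unfold cnt
  rw [Finset.prod_ite, Finset.prod_const, Finset.prod_const_one, mul_one]

lemma wt_sum {r : ℕ} {T : Fin r → Finset ℕ} (hd : Pairwise fun s s' => Disjoint (T s) (T s'))
    (θ : Fin r → ℝ) (g : ℕ → ℝ) :
    ∑ q ∈ UU T, wt T θ q * g q = ∑ s, (1 - θ s) * ∑ p ∈ T s, g p := by
  unfold UU
  rw [Finset.sum_biUnion (fun s _ s' _ hss => hd hss)]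
  refine Finset.sum_congr rfl fun s _ => ?_
  rw [Finset.mul_sum]
  refine Finset.sum_congr rfl fun p hp => ?_
  rw [wt_eq hd θ hp]

/-- families of finite sets of primes: they are disjoint, they move to infinity, they consist of
primes `p = X ^ o(1)`, and their masses converge -/
structure Fam {r : ℕ} (X : ℕ → ℕ) (T : ℕ → Fin r → Finset ℕ) (lam : Fin r → ℝ) : Prop where
  disj : ∀ n, Pairwise fun s s' => Disjoint (T n s) (T n s')
  prime : ∀ n s, ∀ p ∈ T n s, p.Prime
  min : ∀ M : ℕ, ∀ᶠ n in atTop, ∀ s, ∀ p ∈ T n s, M < p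
  size : Tendsto X atTop atTop
  small : ∀ K : ℕ, ∀ᶠ n in atTop, ∀ s, ∀ p ∈ T n s, p ^ K ≤ X n
  mass : ∀ s, Tendsto (fun n => ∑ p ∈ T n s, (1 : ℝ) / p) atTop (𝓝 (lam s))

lemma gg_sum {T : ℕ → Finset ℕ} (hp : ∀ n, ∀ p ∈ T n, p.Prime) (hmin : ∀ M : ℕ, ∀ᶠ n in atTop, ∀ p ∈ T n, M < p)
    {lam : ℝ} (hm : Tendsto (fun n => ∑ p ∈ T n, (1 : ℝ) / p) atTop (𝓝 lam)) :
    Tendsto (fun n => ∑ p ∈ T n, gg p) atTop (𝓝 lam) := by
  have hd : Tendsto (fun n => ∑ p ∈ T n, (1 : ℝ) / p - ∑ p ∈ T n, gg p) atTop (𝓝 0) := by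
    rw [Metric.tendsto_nhds]
    intro ε hε
    obtain ⟨M, hM⟩ := exists_nat_gt ((|lam| + 1) / ε)
    have hM0 : (0 : ℝ) < M := lt_trans (by positivity) hM
    filter_upwards [hmin M, hm.eventually_lt_const (lt_add_one lam)] with n h1 h2
    rw [Real.dist_eq, sub_zero, ← sum_sub_distrib]
    have h3 : ∀ p ∈ T n, |(1 : ℝ) / p - gg p| ≤ 1 / M * (1 / p) := by
      intro p hpn
      have hp0 : (0 : ℝ) < p := by exact_mod_cast (hp n p hpn).pos
      have e : (1 : ℝ) / p - gg p = 1 / p * (1 / p) := by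
        unfold gg
        field_simp
        ring
      rw [e, abs_of_nonneg (by positivity)]
      refine mul_le_mul_of_nonneg_right ?_ (by positivity)
      apply one_div_le_one_div_of_le hM0
      exact_mod_cast (h1 p hpn).le
    calc |∑ p ∈ T n, ((1 : ℝ) / p - gg p)| ≤ ∑ p ∈ T n, 1 / (M : ℝ) * (1 / p) :=
          (abs_sum_le_sum_abs _ _).trans (sum_le_sum h3)
      _ = 1 / M * ∑ p ∈ T n, (1 : ℝ) / p := by rw [mul_sum]
      _ ≤ 1 / M * (|lam| + 1) := by
          refine mul_le_mul_of_nonneg_left ?_ (by positivity)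
          have := le_abs_self lam
          linarith
      _ < ε := by
          rw [one_div_mul_eq_div, div_lt_iff₀ hM0]
          rw [div_lt_iff₀ hε] at hM
          linarith
  have := hm.sub hd
  simpa using this

/-- **the generating function** -/
theorem lap {r : ℕ} {X : ℕ → ℕ} {T : ℕ → Fin r → Finset ℕ} {lam : Fin r → ℝ} (hF : Fam X T lam)
    (P : ℕ → Par)
    (hP : ∀ n s, ∀ p ∈ T n s, ¬ (p : ℤ) ∣ (P n).q) (θ : Fin r → ℝ) (hθ : ∀ s, 0 ≤ θ s ∧ θ s ≤ 1) :
    Tendsto (fun n => Av (X n) (fun a => ∏ s, θ s ^ cnt (P n) (T n s) a)) atTop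
      (𝓝 (∏ s, Real.exp (-(lam s * (1 - θ s))))) := by
  set μ : ℕ → ℝ := fun n => ∑ p ∈ UU (T n), wt (T n) θ p * gg p with hμ
  set L := ∑ s, (1 - θ s) * lam s with hL
  have hprime : ∀ n, ∀ p ∈ UU (T n), p.Prime := by
    intro n p hp
    obtain ⟨s, _, hs⟩ := mem_biUnion.1 hp
    exact hF.prime n s p hs
  have hmass : ∀ s, Tendsto (fun n => ∑ p ∈ T n s, gg p) atTop (𝓝 (lam s)) := fun s =>
    gg_sum (fun n => hF.prime n s) (fun M => (hF.min M).mono fun n hn => hn s) (hF.mass s)
  have hμL : Tendsto μ atTop (𝓝 L) := by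
    have h1 : Tendsto (fun n => ∑ s, (1 - θ s) * ∑ p ∈ T n s, gg p) atTop (𝓝 L) :=
      tendsto_finsetSum _ fun s _ => (hmass s).const_mul _
    refine h1.congr fun n => ?_
    rw [hμ]
    exact (wt_sum (hF.disj n) θ gg).symm
  have e : ∏ s, Real.exp (-(lam s * (1 - θ s))) = Real.exp (-L) := by
    rw [← Real.exp_sum, Finset.sum_neg_distrib]
    congr 2
    exact Finset.sum_congr rfl fun s _ => mul_comm _ _
  rw [e]
  have hexp : Tendsto (fun n => Real.exp (-μ n)) atTop (𝓝 (Real.exp (-L))) :=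
    (Real.continuous_exp.tendsto _).comp hμL.neg
  have hμ0 : ∀ n, 0 ≤ μ n := fun n => sum_nonneg fun p hp =>
    mul_nonneg (wt_mem (hF.disj n) hθ p).1 (gg_nonneg (hprime n p hp).one_le)
  have hL0 : 0 ≤ L := ge_of_tendsto' hμL hμ0
  have hdiff : Tendsto (fun n => Av (X n) (fun a => ∏ s, θ s ^ cnt (P n) (T n s) a) -
      Real.exp (-μ n)) atTop (𝓝 0) := by
    rw [Metric.tendsto_nhds]
    intro ε hε
    -- the order of the expansion
    have hfac := FloorSemiring.tendsto_pow_div_factorial_atTop (L + 1)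
    obtain ⟨m, hm⟩ := ((tendsto_add_atTop_iff_nat 1).2 hfac |>.eventually_lt_const
      (show (0 : ℝ) < ε / 8 by positivity)).exists
    obtain ⟨M, hM⟩ := exists_nat_gt (8 * (L + 1) / ε)
    have hM0 : (0 : ℝ) < M := lt_of_le_of_lt (by positivity) hM
    obtain ⟨Z, hZ⟩ := exists_nat_gt ((8 * (m + 2) / ε) ^ 2)
    filter_upwards [hF.min (max M 2), hF.small (4 * (m + 1)), hF.size.eventually_ge_atTop (max Z 1),
      hμL.eventually_lt_const (lt_add_one L)] with n h1 h2 h3 h4
    have hX1 : 1 ≤ X n := (le_max_right _ _).trans h3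
    have hXZ : Z ≤ X n := (le_max_left _ _).trans h3
    have hX0 : (0 : ℝ) < X n := by exact_mod_cast hX1
    have h1' : ∀ p ∈ UU (T n), max M 2 < p := by
      intro p hp
      obtain ⟨s, _, hs⟩ := mem_biUnion.1 hp
      exact h1 s p hs
    have hT2 : ∀ p ∈ UU (T n), p.Prime ∧ p ≠ 2 ∧ ¬ (p : ℤ) ∣ (P n).q := by
      intro p hp
      refine ⟨hprime n p hp, ?_, ?_⟩
      · have := h1' p hp
        have := le_max_right M 2
        omega
      · obtain ⟨s, _, hs⟩ := mem_biUnion.1 hp
        exact hP n s p hs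
    -- the largest prime
    set Y := max 1 ((UU (T n)).sup id) with hY
    have hYp : ∀ p ∈ UU (T n), p ≤ Y := fun p hp =>
      (Finset.le_sup (f := id) hp).trans (le_max_right _ _)
    have hYX : Y ^ (4 * (m + 1)) ≤ X n := by
      rcases (UU (T n)).eq_empty_or_nonempty with he | hne
      · have : Y = 1 := by rw [hY, he]; simp
        rw [this, one_pow]
        exact hX1
      · obtain ⟨q, hq, hq2⟩ := Finset.exists_mem_eq_sup _ hne id
        have h5 : Y = q := by
          rw [hY, hq2]
          exact max_eq_right (hprime n q hq).one_le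
        rw [h5]
        obtain ⟨s, _, hs⟩ := mem_biUnion.1 hq
        exact h2 s q hs
    have hgen := gen (P n) (UU (T n)) hT2 hX1 hYp (le_max_left _ _) (wt (T n) θ)
      (wt_mem (hF.disj n) hθ) m
    have hpe : |∏ p ∈ UU (T n), (1 - wt (T n) θ p * gg p) - Real.exp (-μ n)| ≤
        ∑ p ∈ UU (T n), (wt (T n) θ p * gg p) ^ 2 := by
      refine prod_exp _ (fun p => wt (T n) θ p * gg p) fun p hp => ?_
      have e1 := gg_nonneg (hprime n p hp).one_le
      have e2 := gg_le (hprime n p hp).one_le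
      have e3 : (1 : ℝ) / p ≤ 1 := by
        rw [div_le_one (by exact_mod_cast (hprime n p hp).pos)]
        exact_mod_cast (hprime n p hp).one_le
      have e4 := wt_mem (hF.disj n) hθ p
      constructor
      · exact mul_nonneg e4.1 e1
      · nlinarith
    have hsq : ∑ p ∈ UU (T n), (wt (T n) θ p * gg p) ^ 2 ≤ 1 / M * μ n := by
      rw [hμ, mul_sum]
      refine sum_le_sum fun p hp => ?_
      have e1 := gg_nonneg (hprime n p hp).one_le
      have e2 := gg_le (hprime n p hp).one_le
      have e4 := wt_mem (hF.disj n) hθ p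
      have e5 : (1 : ℝ) / p ≤ 1 / M := by
        apply one_div_le_one_div_of_le hM0
        have := h1' p hp
        have h6 := le_max_left M 2
        exact_mod_cast (by omega : M ≤ p)
      have e6 : wt (T n) θ p * gg p ≤ 1 / M := by
        calc wt (T n) θ p * gg p ≤ 1 * gg p := mul_le_mul_of_nonneg_right e4.2 e1
          _ ≤ 1 / M := by linarith
      rw [pow_two]
      exact mul_le_mul_of_nonneg_right e6 (mul_nonneg e4.1 e1)
    have hprod : Av (X n) (fun a => ∏ p ∈ UU (T n), (1 - wt (T n) θ p * I1 (P n) a p)) =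
        Av (X n) (fun a => ∏ s, θ s ^ cnt (P n) (T n s) a) := by
      congr 1
      funext a
      exact prod_theta (hF.disj n) θ (P n) a
    rw [hprod] at hgen
    -- the three errors
    have t1 : ((m : ℝ) + 2) * ((Y : ℝ) ^ (2 * (m + 1)) / X n) ≤ ε / 8 := by
      have u1 : ((Y : ℝ) ^ (2 * (m + 1))) ^ 2 ≤ X n := by
        rw [← pow_mul]
        have : 2 * (m + 1) * 2 = 4 * (m + 1) := by ring
        rw [this]
        exact_mod_cast hYX
      have u2 : (8 * ((m : ℝ) + 2) / ε) ^ 2 < X n := by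
        have : (Z : ℝ) ≤ X n := by exact_mod_cast hXZ
        linarith
      have u3 : ((Y : ℝ) ^ (2 * (m + 1)) * (8 * ((m : ℝ) + 2) / ε)) ^ 2 ≤ (X n : ℝ) ^ 2 := by
        rw [mul_pow, pow_two (X n : ℝ)]
        exact mul_le_mul u1 u2.le (by positivity) hX0.le
      have u4 := abs_le_of_sq_le_sq' u3 hX0.le
      rw [mul_div_assoc', div_le_iff₀ hX0]
      have u5 := u4.2
      rw [mul_div_assoc', div_le_iff₀ hε] at u5
      nlinarith
    have t2 : 2 * (μ n ^ (m + 1) / (m + 1).factorial) ≤ ε / 4 := by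
      have v1 : μ n ^ (m + 1) ≤ (L + 1) ^ (m + 1) := pow_le_pow_left₀ (hμ0 n) h4.le _
      have v2 : μ n ^ (m + 1) / (m + 1).factorial ≤ (L + 1) ^ (m + 1) / (m + 1).factorial :=
        div_le_div_of_nonneg_right v1 (Nat.cast_nonneg _)
      linarith
    have t3 : 1 / M * μ n ≤ ε / 8 := by
      rw [one_div_mul_eq_div, div_le_iff₀ hM0]
      rw [div_lt_iff₀ hε] at hM
      nlinarith
    rw [Real.dist_eq, sub_zero]
    have t4 := abs_sub_le (Av (X n) (fun a => ∏ s, θ s ^ cnt (P n) (T n s) a))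
      (∏ p ∈ UU (T n), (1 - wt (T n) θ p * gg p)) (Real.exp (-μ n))
    have t5 : (∑ p ∈ UU (T n), wt (T n) θ p * gg p) = μ n := rfl
    rw [t5] at hgen
    linarith
  have := hdiff.add hexp
  simpa using this

/-- **The joint law.** -/
theorem law {r : ℕ} {X : ℕ → ℕ} {T : ℕ → Fin r → Finset ℕ} {lam : Fin r → ℝ} (hF : Fam X T lam)
    (P : ℕ → Par)
    (hP : ∀ n s, ∀ p ∈ T n s, ¬ (p : ℤ) ∣ (P n).q) (k : Fin r → ℕ) :
    Tendsto (fun n => (((Icc 1 (X n)).filter (fun a : ℕ => ∀ s,
        ((T n s).filter (fun p => Wi (P n) a p)).card = k s)).card : ℝ) / X n) atTop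
      (𝓝 (∏ s, (Real.exp (-lam s) * lam s ^ k s / (k s).factorial))) := by
  have hlam : ∀ s, 0 ≤ lam s := fun s => ge_of_tendsto' (hF.mass s) fun n =>
    sum_nonneg fun p _ => by positivity
  have h := joint X (fun n s a => cnt (P n) (T n s) a) lam hlam (fun θ hθ => lap hF P hP θ hθ) univ
    (fun _ => 0) (fun _ => ⟨le_rfl, zero_le_one⟩) k
  simp only [LL, mem_univ, if_true] at h
  refine h.congr fun n => ?_
  unfold Av
  congr 1
  rw [card_filter, Nat.cast_sum]
  refine sum_congr rfl fun a _ => ?_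
  simp only [fac, mem_univ, if_true]
  by_cases hc : ∀ s, ((T n s).filter (fun p => Wi (P n) a p)).card = k s
  · rw [if_pos hc]
    push_cast
    exact prod_eq_one fun s _ => by rw [if_pos]; exact hc s
  · rw [if_neg hc]
    push Not at hc
    obtain ⟨s, hs⟩ := hc
    push_cast
    exact prod_eq_zero (mem_univ s) (by rw [if_neg]; exact hs)

end Run7.h854.FQ
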