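import Mathlib
import Pool.Agent.Helper92K9.WI.Var
import Pool.Agent.Run7.h854.FQ.GauA

set_option autoImplicit false

/-!
# The Gaussian law
-/

namespace Run7.h854.FQ

open Finset Filter Topology MeasureTheory ProbabilityTheory
open scoped Classical
open Run7.h854.WP
open Pool.Agent.Helper92K9.WI (gg)

/-- the law of `f` -/
noncomputable def mu (X : ℕ) (f : ℕ → ℝ) : Measure ℝ :=
  (X : ENNReal)⁻¹ • ∑ a ∈ Icc 1 X, Measure.dirac (f a)

lemma mu_apply (X : ℕ) (f : ℕ → ℝ) {E : Set ℝ} (hE : MeasurableSet E) :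
    mu X f E = (X : ENNReal)⁻¹ * (((Icc 1 X).filter (fun a => f a ∈ E)).card : ENNReal) := by
  unfold mu
  rw [Measure.smul_apply, Measure.finsetSum_apply, smul_eq_mul]
  congr 1
  rw [card_filter, Nat.cast_sum]
  refine sum_congr rfl fun a _ => ?_
  rw [Measure.dirac_apply' _ hE, Set.indicator_apply]
  split_ifs <;> simp

lemma mu_prob {X : ℕ} (hX : 1 ≤ X) (f : ℕ → ℝ) : IsProbabilityMeasure (mu X f) := by
  constructor
  rw [mu_apply X f MeasurableSet.univ]
  simp only [Set.mem_univ, filter_true, Nat.card_Icc, Nat.add_sub_cancel]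
  refine ENNReal.inv_mul_cancel ?_ (ENNReal.natCast_ne_top _)
  exact_mod_cast (by omega : X ≠ 0)

lemma mu_charFun (X : ℕ) (f : ℕ → ℝ) (t : ℝ) :
    charFun (mu X f) t = AvC X (fun a => Complex.exp (Complex.I * ((t * f a : ℝ) : ℂ))) := by
  rw [charFun_apply_real]
  unfold mu AvC
  rw [integral_smul_measure, integral_finsetSum_measure]
  · rw [ENNReal.toReal_inv, ENNReal.toReal_natCast, div_eq_inv_mul, Complex.real_smul]
    push_cast
    congr 1
    refine sum_congr rfl fun a _ => ?_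
    rw [integral_dirac]
    congr 1
    ring
  · intro a _
    exact integrable_dirac (by simp [enorm_lt_top])

/-- the standard normal law -/
noncomputable def g01 : ProbabilityMeasure ℝ := ⟨gaussianReal 0 1, inferInstance⟩

lemma g01_coe : (g01 : Measure ℝ) = gaussianReal 0 1 := rfl

/-- the law of `f` as a probability measure -/
noncomputable def nu (X : ℕ) (hX : 1 ≤ X) (f : ℕ → ℝ) : ProbabilityMeasure ℝ := ⟨mu X f, mu_prob hX f⟩

lemma nu_coe (X : ℕ) (hX : 1 ≤ X) (f : ℕ → ℝ) : (nu X hX f : Measure ℝ) = mu X f := rfl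

/-- weak convergence -/
theorem weak {X : ℕ → ℕ} (hX1 : ∀ n, 1 ≤ X n) (f : ℕ → ℕ → ℝ)
    (h : ∀ t : ℝ, Tendsto (fun n => AvC (X n) (fun a => Complex.exp (Complex.I * ((t * f n a : ℝ) : ℂ))))
      atTop (𝓝 (Complex.exp (-((t : ℂ) ^ 2 / 2))))) (x : ℝ) :
    Tendsto (fun n => (((Icc 1 (X n)).filter (fun a => f n a ≤ x)).card : ℝ) / X n) atTop
      (𝓝 ((gaussianReal 0 1) (Set.Iic x)).toReal) := by
  have h1 : Tendsto (fun n => nu (X n) (hX1 n) (f n)) atTop (𝓝 g01) := by
    refine ProbabilityMeasure.tendsto_iff_tendsto_charFun.2 fun t => ?_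
    have e1 : charFun (g01 : Measure ℝ) t = Complex.exp (-((t : ℂ) ^ 2 / 2)) := by
      rw [g01_coe, charFun_gaussianReal]
      congr 1
      push_cast
      ring
    rw [e1]
    refine (h t).congr fun n => ?_
    rw [nu_coe]
    exact (mu_charFun (X n) (f n) t).symm
  have h0 : (g01 : Measure ℝ) (frontier (Set.Iic x)) = 0 := by
    rw [frontier_Iic, g01_coe]
    have := nullSingletonClass_gaussianReal (μ := 0) (v := 1) one_ne_zero
    exact measure_singleton x
  have h2 := ProbabilityMeasure.tendsto_measure_of_null_frontier_of_tendsto' h1 (E := Set.Iic x) h0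
  have h3 := (ENNReal.tendsto_toReal (measure_ne_top (g01 : Measure ℝ) (Set.Iic x))).comp h2
  rw [g01_coe] at h3
  refine h3.congr fun n => ?_
  rw [Function.comp_apply, nu_coe]
  rw [mu_apply _ _ measurableSet_Iic, ENNReal.toReal_mul, ENNReal.toReal_inv, ENNReal.toReal_natCast,
    ENNReal.toReal_natCast, div_eq_inv_mul]
  simp only [Set.mem_Iic]

/-- a small change of the function -/
lemma chf_shift {X : ℕ → ℕ} (f g : ℕ → ℕ → ℝ) (e : ℕ → ℝ) (he : Tendsto e atTop (𝓝 0))
    (hfg : ∀ᶠ n in atTop, Av (X n) (fun a => |f n a - g n a|) ≤ e n) (t : ℝ) {z : ℂ}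
    (h : Tendsto (fun n => AvC (X n) (fun a => Complex.exp (Complex.I * ((t * f n a : ℝ) : ℂ)))) atTop (𝓝 z)) :
    Tendsto (fun n => AvC (X n) (fun a => Complex.exp (Complex.I * ((t * g n a : ℝ) : ℂ)))) atTop (𝓝 z) := by
  have h1 : Tendsto (fun n => AvC (X n) (fun a => Complex.exp (Complex.I * ((t * g n a : ℝ) : ℂ))) -
      AvC (X n) (fun a => Complex.exp (Complex.I * ((t * f n a : ℝ) : ℂ)))) atTop (𝓝 0) := by
    rw [tendsto_zero_iff_norm_tendsto_zero]
    have h2 : Tendsto (fun n => |t| * e n) atTop (𝓝 0) := by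
      have := he.const_mul |t|
      rwa [mul_zero] at this
    refine squeeze_zero' (Eventually.of_forall fun n => norm_nonneg _) ?_ h2
    filter_upwards [hfg] with n hn
    rw [← avC_sub]
    refine (avC_norm _ _).trans ?_
    refine le_trans ?_ (mul_le_mul_of_nonneg_left hn (abs_nonneg t))
    rw [← av_mul]
    refine av_mono _ fun a => ?_
    have h4 : Complex.exp (Complex.I * ((t * g n a : ℝ) : ℂ)) - Complex.exp (Complex.I * ((t * f n a : ℝ) : ℂ)) =
        Complex.exp (Complex.I * ((t * f n a : ℝ) : ℂ)) *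
          (Complex.exp (Complex.I * ((t * (g n a - f n a) : ℝ) : ℂ)) - 1) := by
      rw [mul_sub, mul_one, ← Complex.exp_add]
      congr 2
      push_cast
      ring
    rw [h4, norm_mul]
    have h5 : ‖Complex.exp (Complex.I * ((t * f n a : ℝ) : ℂ))‖ = 1 := by
      rw [mul_comm]
      exact Complex.norm_exp_ofReal_mul_I _
    rw [h5, one_mul]
    have h6 := Real.norm_exp_I_mul_ofReal_sub_one_le (x := t * (g n a - f n a))
    refine h6.trans ?_
    rw [Real.norm_eq_abs, abs_mul, abs_sub_comm]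
  have := h1.add h
  simpa using this

/-- the number of the primes `p ≤ y` with the Fermat quotient `b` for the
difference `h + i` -/
noncomputable def NN (b h : ℤ) (y i : ℕ) : ℕ := ((Icc 1 y).filter (fun p => IsFQ b (h + i) p)).card

lemma NN_close (b h : ℤ) (y i : ℕ) :
    |(cnt ⟨b, h, 1⟩ (Pool.Agent.Helper92K9.WI.Od y) i : ℝ) - (NN b h y i : ℝ)| ≤ 1 := by
  have h2 : (Pool.Agent.Helper92K9.WI.Od y).filter (fun p => Wi ⟨b, h, 1⟩ i p) =
      ((Icc 1 y).filter (fun p => IsFQ b (h + i) p)).erase 2 := by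
    ext p
    rw [mem_erase, mem_filter, mem_filter, Pool.Agent.Helper92K9.WI.mem_Od, mem_Icc]
    unfold Wi
    simp only [one_mul]
    constructor
    · rintro ⟨⟨h, h3, h4⟩, h5⟩
      exact ⟨h4, h, h5⟩
    · rintro ⟨h4, h, h5⟩
      exact ⟨⟨h, h5.1, h4⟩, h5⟩
  unfold cnt NN
  rw [h2]
  have h3 := card_erase_le (s := (Icc 1 y).filter (fun p => IsFQ b (h + i) p)) (a := 2)
  have h4 := pred_card_le_card_erase (s := (Icc 1 y).filter (fun p => IsFQ b (h + i) p)) (a := 2)
  set A := (((Icc 1 y).filter (fun p => IsFQ b (h + i) p)).erase 2).card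
  set B := ((Icc 1 y).filter (fun p => IsFQ b (h + i) p)).card
  have h5 : B ≤ A + 1 := by omega
  have h3' : (A : ℝ) ≤ B := by exact_mod_cast h3
  have h5' : (B : ℝ) ≤ A + 1 := by exact_mod_cast h5
  rw [abs_le]
  constructor <;> linarith

open Pool.Agent.Helper92K9.WI (Od mem_Od lam_est)

/-- the first moment of the number of the good primes in `(Y, y]` -/
lemma first (b h : ℤ) {X Y y : ℕ} (hX : 1 ≤ X) (hYy : Y ≤ y) (hyX : y ^ 2 ≤ X) :
    Av X (fun i => |(cnt ⟨b, h, 1⟩ (Od Y) i : ℝ) - (NN b h y i : ℝ)|) ≤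
      (∑ p ∈ Od y, gg p - ∑ p ∈ Od Y, gg p) + 2 := by
  have hX0 : (0 : ℝ) < X := by exact_mod_cast hX
  have hsub : Od Y ⊆ Od y := by
    intro p hp
    rw [mem_Od] at hp ⊢
    exact ⟨⟨hp.1.1, hp.1.2.trans hYy⟩, hp.2⟩
  have hcnt : ∀ (T : Finset ℕ) (i : ℕ), (cnt ⟨b, h, 1⟩ T i : ℝ) = ∑ p ∈ T, I1 ⟨b, h, 1⟩ i p := by
    intro T i
    unfold cnt I1
    rw [card_filter, Nat.cast_sum]
    refine sum_congr rfl fun p _ => ?_
    push_cast
    rfl
  have h1 : ∀ i, |(cnt ⟨b, h, 1⟩ (Od Y) i : ℝ) - (NN b h y i : ℝ)| ≤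
      ∑ p ∈ Od y \ Od Y, I1 ⟨b, h, 1⟩ i p + 1 := by
    intro i
    have e1 : (cnt ⟨b, h, 1⟩ (Od y) i : ℝ) = ∑ p ∈ Od y \ Od Y, I1 ⟨b, h, 1⟩ i p + cnt ⟨b, h, 1⟩ (Od Y) i := by
      rw [hcnt, hcnt, sum_sdiff hsub]
    have e2 := NN_close b h y i
    have e3 : 0 ≤ ∑ p ∈ Od y \ Od Y, I1 ⟨b, h, 1⟩ i p := sum_nonneg fun p _ => by
      unfold I1
      split_ifs <;> norm_num
    rw [abs_le] at e2 ⊢
    constructor <;> linarith [e2.1, e2.2]
  have h2 : ∀ p ∈ Od y \ Od Y, Av X (fun i => I1 ⟨b, h, 1⟩ i p) ≤ gg p + y / X := by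
    intro p hp
    have hp' := mem_Od.1 (mem_sdiff.1 hp).1
    have h3 := av_prod ⟨b, h, 1⟩ {p} (by
      intro q hq
      rw [mem_singleton] at hq
      subst hq
      refine ⟨hp'.2.1, hp'.2.2, fun hd => ?_⟩
      have hd' : (q : ℤ) ∣ 1 := hd
      have h3 : q ∣ 1 := by exact_mod_cast hd'
      exact hp'.2.1.one_lt.ne' (Nat.dvd_one.1 h3)) hX (fun _ => 1) (fun _ => ⟨zero_le_one, le_rfl⟩)
    simp only [prod_singleton, one_mul] at h3
    have h4 := (abs_le.1 h3).2
    have h5 : (p : ℝ) / X ≤ y / X := div_le_div_of_nonneg_right (by exact_mod_cast hp'.1.2) hX0.le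
    linarith
  have h3 : Av X (fun _ => (1 : ℝ)) = 1 := by
    unfold Av
    rw [sum_const, Nat.card_Icc, Nat.add_sub_cancel, nsmul_eq_mul, mul_one, div_self hX0.ne']
  calc Av X (fun i => |(cnt ⟨b, h, 1⟩ (Od Y) i : ℝ) - (NN b h y i : ℝ)|) ≤
        Av X (fun i => ∑ p ∈ Od y \ Od Y, I1 ⟨b, h, 1⟩ i p + 1) := av_mono _ h1
    _ = ∑ p ∈ Od y \ Od Y, Av X (fun i => I1 ⟨b, h, 1⟩ i p) + 1 := by
        have e5 : Av X (fun i => ∑ p ∈ Od y \ Od Y, I1 ⟨b, h, 1⟩ i p + 1) =
            Av X (fun i => ∑ p ∈ Od y \ Od Y, I1 ⟨b, h, 1⟩ i p) + Av X (fun _ => (1 : ℝ)) := by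
          unfold Av
          rw [sum_add_distrib, add_div]
        rw [e5, av_sum, h3]
    _ ≤ ∑ p ∈ Od y \ Od Y, (gg p + y / X) + 1 := add_le_add (sum_le_sum h2) le_rfl
    _ ≤ _ := by
        rw [sum_add_distrib, sum_const, nsmul_eq_mul]
        have e6 : ∑ p ∈ Od y \ Od Y, gg p = ∑ p ∈ Od y, gg p - ∑ p ∈ Od Y, gg p := by
          rw [← sum_sdiff hsub]
          ring
        have e7 : ((Od y \ Od Y).card : ℝ) ≤ y := by
          have : (Od y \ Od Y).card ≤ y := by
            refine (card_le_card sdiff_subset).trans ((card_filter_le _ _).trans ?_)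
            simp
          exact_mod_cast this
        have e8 : ((Od y \ Od Y).card : ℝ) * (y / X) ≤ 1 := by
          calc ((Od y \ Od Y).card : ℝ) * (y / X) ≤ y * (y / X) :=
                mul_le_mul_of_nonneg_right e7 (by positivity)
            _ = (y : ℝ) ^ 2 / X := by ring
            _ ≤ 1 := by
                rw [div_le_one hX0]
                exact_mod_cast hyX
        linarith

/-- the truncation -/
noncomputable def YY (y : ℕ) : ℕ := ⌊Real.exp (Real.log y / Real.log (Real.log y))⌋₊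

lemma YY_spec : ∀ᶠ y : ℕ in atTop, 3 ≤ YY y ∧ YY y ≤ y ∧
    (YY y : ℝ) ≤ Real.exp (Real.log y / Real.log (Real.log y)) ∧
    |Real.log (Real.log (YY y)) - Real.log (Real.log y)| ≤ Real.log (Real.log (Real.log y)) + Real.log 2 := by
  have hl : Tendsto (fun y : ℕ => Real.log (y : ℝ)) atTop atTop :=
    Real.tendsto_log_atTop.comp tendsto_natCast_atTop_atTop
  have hll : Tendsto (fun y : ℕ => Real.log (Real.log (y : ℝ))) atTop atTop := Real.tendsto_log_atTop.comp hl
  -- `log y / log log y → ∞`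
  have hlo : Tendsto (fun x : ℝ => Real.log x / x) atTop (𝓝 0) := by
    have := (isLittleO_log_rpow_atTop (show (0 : ℝ) < 1 by norm_num)).tendsto_div_nhds_zero
    simpa using this
  have h1 := (hlo.comp hl).eventually_lt_const (show (0 : ℝ) < 1 / 4 by norm_num)
  filter_upwards [h1, hll.eventually_ge_atTop 1, hl.eventually_ge_atTop 8, eventually_ge_atTop 1] with y h1 h2 h3 h4
  simp only [Function.comp_apply] at h1
  set l := Real.log (y : ℝ) with hldef
  set L := Real.log l with hLdef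
  have hl0 : 0 < l := by linarith
  have hL0 : 0 < L := by linarith
  have hy0 : (0 : ℝ) < y := by exact_mod_cast h4
  rw [div_lt_iff₀ hl0] at h1
  have h5 : 4 ≤ l / L := by
    rw [le_div_iff₀ hL0]
    linarith
  have h6 : Real.exp 4 ≤ Real.exp (l / L) := Real.exp_le_exp.2 h5
  have h7 : (5 : ℝ) ≤ Real.exp 4 := by
    have := Real.add_one_le_exp (4 : ℝ)
    linarith
  have hf1 : (YY y : ℝ) ≤ Real.exp (l / L) := Nat.floor_le (Real.exp_pos _).le
  have hf2 : Real.exp (l / L) < YY y + 1 := Nat.lt_floor_add_one _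
  have hf3 : (4 : ℝ) < YY y := by linarith
  have hf4 : (YY y : ℝ) ≤ y := by
    refine hf1.trans ?_
    calc Real.exp (l / L) ≤ Real.exp l := Real.exp_le_exp.2 (div_le_self hl0.le h2)
      _ = y := Real.exp_log hy0
  refine ⟨by exact_mod_cast (by linarith : (3 : ℝ) ≤ YY y), by exact_mod_cast hf4, hf1, ?_⟩
  have hYpos : (0 : ℝ) < YY y := by linarith
  have g1 : Real.log (YY y) ≤ l / L := by
    have := Real.log_le_log hYpos hf1
    rwa [Real.log_exp] at this
  have g2 : l / L - Real.log 2 ≤ Real.log (YY y) := by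
    have e1 : Real.exp (l / L) / 2 ≤ YY y := by linarith
    have := Real.log_le_log (by positivity) e1
    rwa [Real.log_div (Real.exp_pos _).ne' (by norm_num), Real.log_exp] at this
  have hlog2 : Real.log 2 ≤ 1 := by
    have := Real.log_two_lt_d9
    linarith
  have g3 : l / L / 2 ≤ Real.log (YY y) := by linarith
  have g4 : 0 < l / L / 2 := by positivity
  have g5 : Real.log (Real.log (YY y)) ≤ L - Real.log L := by
    have := Real.log_le_log (g4.trans_le g3) g1
    rwa [Real.log_div hl0.ne' hL0.ne'] at this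
  have g6 : L - Real.log L - Real.log 2 ≤ Real.log (Real.log (YY y)) := by
    have := Real.log_le_log g4 g3
    rwa [Real.log_div (by positivity) (by norm_num), Real.log_div hl0.ne' hL0.ne'] at this
  have g7 : 0 ≤ Real.log L := Real.log_nonneg h2
  have g8 : 0 ≤ Real.log 2 := Real.log_nonneg (by norm_num)
  rw [abs_le]
  constructor <;> linarith

/-- **The Gaussian law.** -/
theorem gauss (x : ℝ) {ε : ℝ} (hε : 0 < ε) : ∃ y0 : ℕ, ∀ y : ℕ, y0 ≤ y → ∀ X : ℕ,
    y ^ 2 ≤ X → ∀ b h : ℤ,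
    |(((Icc 1 X).filter (fun i : ℕ => ((NN b h y i : ℝ) - Real.log (Real.log y)) /
      √(Real.log (Real.log y)) ≤ x)).card : ℝ) / X - ((gaussianReal 0 1) (Set.Iic x)).toReal| ≤ ε := by
  by_contra hcon
  push Not at hcon
  choose y hy X hX b h hbad using fun n : ℕ => hcon (n + 16)
  have hyt : Tendsto y atTop atTop := tendsto_atTop_mono (fun n => (by
    have := hy n
    omega : n ≤ y n)) tendsto_id
  have hll : Tendsto (fun m : ℕ => Real.log (Real.log (m : ℝ))) atTop atTop :=
    Real.tendsto_log_atTop.comp (Real.tendsto_log_atTop.comp tendsto_natCast_atTop_atTop)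
  set lam : ℕ → ℝ := fun n => Real.log (Real.log (y n)) with hlamd
  have hlam : Tendsto lam atTop atTop := hll.comp hyt
  obtain ⟨C, hC0, hC⟩ := lam_est
  have hX1 : ∀ n, 1 ≤ X n := by
    intro n
    refine le_trans ?_ (hX n)
    have := hy n
    exact Nat.one_le_pow _ _ (by omega)
  have hsq : Tendsto (fun n => √(lam n)) atTop atTop := Real.tendsto_sqrt_atTop.comp hlam
  have hYs := hyt.eventually YY_spec
  set D : ℕ → ℝ := fun n => Real.log (lam n) + (2 * C + Real.log 2 + 2) with hDd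
  have hlog2 : 0 ≤ Real.log 2 := Real.log_nonneg (by norm_num)
  have hD : Tendsto (fun n => D n / √(lam n)) atTop (𝓝 0) := by
    have h1 : Tendsto (fun z : ℝ => Real.log z / √z) atTop (𝓝 0) := by
      have := (isLittleO_log_rpow_atTop (show (0 : ℝ) < 1 / 2 by norm_num)).tendsto_div_nhds_zero
      refine this.congr fun z => ?_
      rw [Real.sqrt_eq_rpow]
    have h2 := (h1.comp hlam).add (hsq.const_div_atTop (2 * C + Real.log 2 + 2))
    rw [add_zero] at h2
    refine h2.congr fun n => ?_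
    simp only [Function.comp_apply, hDd]
    exact (add_div _ _ _).symm
  have hdist : ∀ᶠ n in atTop, |∑ p ∈ Od (YY (y n)), gg p - lam n| ≤ D n := by
    filter_upwards [hYs] with n hn
    have h1 := hC (YY (y n)) hn.1
    have h2 := hn.2.2.2
    have h3 := abs_sub_le (∑ p ∈ Od (YY (y n)), gg p) (Real.log (Real.log (YY (y n)))) (lam n)
    have h4 : |∑ p ∈ Od (YY (y n)), gg p - Real.log (Real.log (YY (y n)))| ≤ C := h1
    have h5 : |Real.log (Real.log (YY (y n))) - lam n| ≤ Real.log (lam n) + Real.log 2 := h2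
    simp only [hDd]
    linarith
  have hchf := fun t : ℝ => chf (X := X) (Y := fun n => YY (y n)) (T := fun n => Od (YY (y n)))
    (lam := lam) (P := fun n => ⟨b n, h n, 1⟩) (D := D)
    (fun n p hp => by
      rw [mem_Od] at hp
      refine ⟨hp.2.1, hp.2.2, fun hd => ?_⟩
      have hd' : (p : ℤ) ∣ 1 := hd
      have h3 : p ∣ 1 := by exact_mod_cast hd'
      exact hp.2.1.one_lt.ne' (Nat.dvd_one.1 h3))
    (fun n p hp => (mem_Od.1 hp).1.2)
    (hYs.mono fun n hn => by have := hn.1; omega) hlam hD hdist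
    (fun K => by
      filter_upwards [hsq.eventually_ge_atTop (K : ℝ), hlam.eventually_gt_atTop 0, hYs] with n hn hn0 hns
      have hy1 : (1 : ℝ) ≤ y n := by
        have := hy n
        exact_mod_cast (by omega : 1 ≤ y n)
      have hXr : (y n : ℝ) ≤ X n := by
        have h1 : y n ≤ X n := (Nat.le_self_pow (by norm_num) _).trans (hX n)
        exact_mod_cast h1
      refine le_trans ?_ hXr
      have hKs : (K : ℝ) * √(lam n) ≤ lam n := by
        calc (K : ℝ) * √(lam n) ≤ √(lam n) * √(lam n) := mul_le_mul_of_nonneg_right hn (Real.sqrt_nonneg _)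
          _ = lam n := Real.mul_self_sqrt hn0.le
      calc ((YY (y n) : ℕ) : ℝ) ^ ((K : ℝ) * √(lam n)) ≤
            (Real.exp (Real.log (y n) / lam n)) ^ ((K : ℝ) * √(lam n)) :=
            Real.rpow_le_rpow (Nat.cast_nonneg _) hns.2.2.1 (by positivity)
        _ = Real.exp (Real.log (y n) / lam n * ((K : ℝ) * √(lam n))) := by rw [← Real.exp_mul]
        _ ≤ Real.exp (Real.log (y n)) := by
            apply Real.exp_le_exp.2
            rw [div_mul_eq_mul_div, div_le_iff₀ hn0]
            exact mul_le_mul_of_nonneg_left hKs (Real.log_nonneg hy1)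
        _ = y n := Real.exp_log (by linarith)) t
  set f : ℕ → ℕ → ℝ := fun n i => ((cnt ⟨b n, h n, 1⟩ (Od (YY (y n))) i : ℝ) - lam n) / √(lam n) with hf
  set g : ℕ → ℕ → ℝ := fun n i => ((NN (b n) (h n) (y n) i : ℝ) - lam n) / √(lam n) with hg
  have hfg : ∀ᶠ n in atTop, Av (X n) (fun a => |f n a - g n a|) ≤ D n / √(lam n) := by
    filter_upwards [hYs] with n hn
    have e : (fun a => |f n a - g n a|) = fun a => (1 / √(lam n)) *
        |(cnt ⟨b n, h n, 1⟩ (Od (YY (y n))) a : ℝ) - (NN (b n) (h n) (y n) a : ℝ)| := by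
      funext a
      have e1 : f n a - g n a = (1 / √(lam n)) * ((cnt ⟨b n, h n, 1⟩ (Od (YY (y n))) a : ℝ) -
          (NN (b n) (h n) (y n) a : ℝ)) := by
        rw [hf, hg]
        simp only
        ring
      rw [e1, abs_mul, abs_of_nonneg (by positivity)]
    rw [e, av_mul, one_div_mul_eq_div]
    refine div_le_div_of_nonneg_right ?_ (Real.sqrt_nonneg _)
    refine (first (b n) (h n) (hX1 n) hn.2.1 (hX n)).trans ?_
    have h1 := (abs_le.1 (hC (y n) (by have := hy n; omega))).2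
    have h2 := (abs_le.1 (hC (YY (y n)) hn.1)).1
    have h3 := (abs_le.1 hn.2.2.2).1
    have h4 : ∑ p ∈ Od (y n), gg p - Real.log (Real.log (y n)) ≤ C := h1
    have h5 : -C ≤ ∑ p ∈ Od (YY (y n)), gg p - Real.log (Real.log (YY (y n))) := h2
    simp only [hDd, hlamd]
    linarith
  have hF : ∀ t : ℝ, Tendsto (fun n => AvC (X n) (fun a => Complex.exp (Complex.I * ((t * f n a : ℝ) : ℂ))))
      atTop (𝓝 (Complex.exp (-((t : ℂ) ^ 2 / 2)))) := by
    intro t
    refine (hchf t).congr fun n => ?_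
    congr 1
    funext a
    congr 3
    rw [hf]
    simp only
    ring
  have hG := fun t : ℝ => chf_shift f g (fun n => D n / √(lam n)) hD hfg t (hF t)
  have hw := weak hX1 g hG x
  obtain ⟨n, hn⟩ := ((Metric.tendsto_nhds.1 hw) ε hε).exists
  rw [Real.dist_eq] at hn
  exact absurd (hbad n) (not_lt.2 hn.le)

end Run7.h854.FQ
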